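import Pool.Agent.Lib.MP_f79ffc_lc.R.Mes

/-! The algebra of the structure maps of the random extension. -/

namespace Pool.Agent.Lib.MP_f79ffc_lc.R

open Pool.Agent.Lib.MP_5d9fac_lc Pool.Agent.Lib.MP_f79ffc_lc.U MeasureTheory Filter Cardinal

theorem al_drop (n : ℕ) : Measurable (drop n) :=
  measurable_pi_lambda _ fun m => measurable_pi_apply (n + m)

theorem al_ae_app (s : List Bool) {P : Pt → Prop} (h : ∀ᵐ y ∂lam, P y) :
    ∀ᵐ y ∂lam, P (app s y) := by
  obtain ⟨N, h1, h2, h3⟩ := exists_measurable_superset_of_null (ae_iff.1 h)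
  have h4 := lam_inter_cylS s h2
  have h5 : lam.real (N ∩ cylS s) = 0 := by
    rw [measureReal_def, measure_mono_null Set.inter_subset_left h3, ENNReal.toReal_zero]
  rw [h5, eq_comm, mul_eq_zero] at h4
  have h6 : lam (app s ⁻¹' N) = 0 :=
    (measureReal_eq_zero_iff (measure_ne_top _ _)).1 (h4.resolve_left (by positivity))
  exact ae_iff.2 (measure_mono_null (fun y hy => h1 (a := app s y) hy) h6)

theorem al_ae_drop (s : List Bool) {P : Pt → Prop} (h : ∀ᵐ y ∂lam, P y) :
    ∀ᵐ y ∂lam, y ∈ cylS s → P (drop s.length y) := by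
  obtain ⟨N, h1, h2, h3⟩ := exists_measurable_superset_of_null (ae_iff.1 h)
  have h4 := lam_inter_cylS s (al_drop s.length h2)
  have h5 : app s ⁻¹' (drop s.length ⁻¹' N) = N := by
    ext y
    simp
  rw [h5, measureReal_def lam N, h3, ENNReal.toReal_zero, mul_zero] at h4
  have h6 := (measureReal_eq_zero_iff (measure_ne_top _ _)).1 h4
  refine ae_iff.2 (measure_mono_null (fun y hy => ?_) h6)
  have hy' : ¬ (y ∈ cylS s → P (drop s.length y)) := hy
  rw [Classical.not_imp] at hy'
  exact ⟨h1 hy'.2, hy'.1⟩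

section
variable {X X' X'' : Type} [CompleteBooleanAlgebra X] [CompleteBooleanAlgebra X']
  [CompleteBooleanAlgebra X'']

theorem al_ult {U V : Ult X} (h : ∀ a, U.In a ↔ V.In a) : U = V := by
  cases U
  cases V
  congr
  exact funext fun a => propext (h a)

theorem al_eq_gen {a b : X} (h : ∀ᶠ U in gen X, U.In a ↔ U.In b) : a = b :=
  le_antisymm (le_iff_gen.2 (h.mono fun _ h => h.1)) (le_iff_gen.2 (h.mono fun _ h => h.2))

theorem al_com (e : Hm X X') {P : Ult X × Pt → Prop} (h : ∀ᶠ z in gen2 X, P z) :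
    ∀ᶠ z in gen2 X', P (com e z.1, z.2) :=
  gen2_iff.2 ((tendsto_com e).eventually (gen2_iff.1 h))

theorem al_app (s : List Bool) {P : Ult X × Pt → Prop} (h : ∀ᶠ z in gen2 X, P z) :
    ∀ᶠ z in gen2 X, P (z.1, app s z.2) :=
  gen2_iff.2 ((gen2_iff.1 h).mono fun U hU => al_ae_app s (P := fun y => P (U, y)) hU)

theorem al_dropc (s : List Bool) {P : Ult X × Pt → Prop} (h : ∀ᶠ z in gen2 X, P z) :
    ∀ᶠ z in gen2 X, z.2 ∈ cylS s → P (z.1, drop s.length z.2) :=
  gen2_iff.2 ((gen2_iff.1 h).mono fun U hU => al_ae_drop s (P := fun y => P (U, y)) hU)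

variable [Fact (CCC X)] [Fact (CCC X')] [Fact (CCC X'')]

theorem al_ext {E F : RX X} (h : ∀ᶠ z in gen2 X, Mem E z ↔ Mem F z) : E = F :=
  le_antisymm (le_iff_mem.2 (h.mono fun _ h => h.1)) (le_iff_mem.2 (h.mono fun _ h => h.2))

theorem al_mem_cyl (s : List Bool) :
    ∀ᶠ z in gen2 X, Mem (cyl s : RX X) z ↔ z.2 ∈ cylS s := mem_rg (measurableSet_cylS s)

theorem ri_inj : Function.Injective (ri : X → RX X) := by
  have key : ∀ a b : X, ri a = ri b → a ≤ b := fun a b h => by
    have h1 : ∀ᶠ z in gen2 X, z.1.In a → z.1.In b := by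
      filter_upwards [mem_ri a, mem_ri b] with z ha hb
      rw [← ha, ← hb, h]
      exact id
    exact le_iff_gen.2 ((gen2_iff.1 h1).mono fun U hU => hU.exists.choose_spec)
  exact fun a b h => le_antisymm (key a b h) (key b a h.symm)

theorem rmap_id {e : Hm X X} (he : ∀ x, e x = x) (E : RX X) : rmap e E = E := by
  refine al_ext ?_
  filter_upwards [mem_rmap e E] with z h
  rw [h, al_ult (U := com e z.1) (V := z.1) fun a => by rw [com_In, he]]

theorem rmap_rmap {e : Hm X X'} {e' : Hm X' X''} {e'' : Hm X X''} (h : ∀ x, e' (e x) = e'' x)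
    (E : RX X) : rmap e' (rmap e E) = rmap e'' E := by
  refine al_ext ?_
  filter_upwards [mem_rmap e' (rmap e E), al_com e' (mem_rmap e E), mem_rmap e'' E] with z h1 h2 h3
  rw [h1, h2, h3, al_ult (U := com e (com e' z.1)) (V := com e'' z.1) fun a => by
    rw [com_In, com_In, com_In, h]]

theorem rmap_ri (e : Hm X X') (a : X) : rmap e (ri a) = ri (e a) := by
  refine al_ext ?_
  filter_upwards [mem_rmap e (ri a), al_com e (mem_ri a), mem_ri (e a)] with z h1 h2 h3
  rw [h1, h2, h3, com_In]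

theorem al_rmap_rg (e : Hm X X') {S : Set Pt} (hS : MeasurableSet S) : rmap e (rg S) = rg S := by
  refine al_ext ?_
  filter_upwards [mem_rmap e (rg S), al_com e (mem_rg (X := X) hS), mem_rg (X := X') hS]
    with z h1 h2 h3
  rw [h1, h2, h3]

theorem rmap_cyl (e : Hm X X') (s : List Bool) : rmap e (cyl s) = cyl s :=
  al_rmap_rg e (measurableSet_cylS s)

theorem rmap_sh (e : Hm X X') (s : List Bool) (E : RX X) :
    rmap e (sh s E) = sh s (rmap e E) := by
  refine al_ext ?_
  filter_upwards [mem_rmap e (sh s E), al_com e (mem_sh s E), mem_sh s (rmap e E),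
    al_app s (mem_rmap e E)] with z h1 h2 h3 h4
  rw [h1, h2, h3, h4]

theorem rmap_put (e : Hm X X') (s : List Bool) (E : RX X) :
    rmap e (put s E) = put s (rmap e E) := by
  refine al_ext ?_
  filter_upwards [mem_rmap e (put s E), al_com e (mem_put s E), mem_put s (rmap e E),
    al_dropc s (mem_rmap e E)] with z h1 h2 h3 h4
  rw [h1, h2, h3]
  exact and_congr_right fun h => (h4 h).symm

theorem rmap_Ev (e : Hm X X') (g : List Bool → X) : rmap e (Ev g) = Ev fun s => e (g s) := by
  refine al_ext ?_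
  filter_upwards [mem_rmap e (Ev g), al_com e (mem_Ev g), mem_Ev fun s => e (g s)] with z h1 h2 h3
  rw [h1, h2, h3]
  simp only [com_In]

theorem Big_rmap (e : Hm X X') (ε : ℝ) (E : RX X) : Big ε (rmap e E) = e (Big ε E) := by
  refine al_eq_gen ?_
  filter_upwards [In_Big ε (rmap e E), mes_rmap e E, (tendsto_com e).eventually (In_Big ε E)]
    with U h1 h2 h3
  rw [h1, h2, ← h3, com_In]

theorem Gt_rmap (e : Hm X X') (u : ℝ) (E : RX X) : Gt u (rmap e E) = e (Gt u E) := by
  refine al_eq_gen ?_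
  filter_upwards [In_Gt u (rmap e E), mes_rmap e E, (tendsto_com e).eventually (In_Gt u E)]
    with U h1 h2 h3
  rw [h1, h2, ← h3, com_In]

theorem Pos_rmap (e : Hm X X') (E : RX X) : Pos (rmap e E) = e (Pos E) := by
  refine al_eq_gen ?_
  filter_upwards [In_Pos (rmap e E), mes_rmap e E, (tendsto_com e).eventually (In_Pos E)]
    with U h1 h2 h3
  rw [h1, h2, ← h3, com_In]

theorem rmap_inj {e : Hm X X'} (he : Function.Injective e) : Function.Injective (rmap e) :=
  hm_inj_iff.2 fun E h => by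
    have h1 := Pos_rmap e E
    rw [h, Pos, pj_bot] at h1
    exact pj_eq_bot.1 (hm_inj_iff.1 he _ h1.symm)

theorem pj_rmap_ri (e : Hm X X') (p : X') : pj (rmap e) (ri p) = ri (pj e p) := by
  refine pj_eq_of ?_ fun E hE h => ?_
  · rw [rmap_ri]
    exact hm_mono _ (le_map_pj e p)
  · rw [← pj_ne_bot (f := ri), pj_inf']
    have h1 : pj ri (rmap e E) = e (Pos E) := Pos_rmap e E
    have h2 : Pos E ≤ pj e p := pj_le.2 h
    rw [h1, inf_map_ne_bot, inf_eq_right.2 h2]
    exact pj_ne_bot.2 hE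

theorem al_rg_mono {S T : Set Pt} (hS : MeasurableSet S) (hT : MeasurableSet T) (h : S ⊆ T) :
    (rg S : RX X) ≤ rg T := by
  refine le_iff_mem.2 ?_
  filter_upwards [mem_rg (X := X) hS, mem_rg (X := X) hT] with z h1 h2
  rw [h1, h2]
  exact fun hz => h hz

theorem rg_univ : (rg Set.univ : RX X) = ⊤ := by
  refine al_ext ?_
  filter_upwards [mem_rg (X := X) MeasurableSet.univ, mem_top (X := X)] with z h1 h2
  simp [h1, h2]

theorem rg_inter {S T : Set Pt} (hS : MeasurableSet S) (hT : MeasurableSet T) :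
    (rg (S ∩ T) : RX X) = rg S ⊓ rg T := by
  refine al_ext ?_
  filter_upwards [mem_rg (X := X) hS, mem_rg (X := X) hT, mem_rg (X := X) (hS.inter hT),
    mem_inf (rg S : RX X) (rg T)] with z h1 h2 h3 h4
  rw [h3, h4, h1, h2, Set.mem_inter_iff]

theorem rg_compl {S : Set Pt} (hS : MeasurableSet S) : (rg Sᶜ : RX X) = (rg S)ᶜ := by
  refine al_ext ?_
  filter_upwards [mem_rg (X := X) hS, mem_rg (X := X) hS.compl, mem_compl (rg S : RX X)]
    with z h1 h2 h3
  rw [h2, h3, h1, Set.mem_compl_iff]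

theorem rg_iUnion {ι : Sort*} [Countable ι] {S : ι → Set Pt} (hS : ∀ i, MeasurableSet (S i)) :
    (rg (⋃ i, S i) : RX X) = ⨆ i, rg (S i) := by
  refine al_ext ?_
  filter_upwards [mem_rg (X := X) (MeasurableSet.iUnion hS), mem_iSup fun i => (rg (S i) : RX X),
    eventually_countable_forall.2 fun i => mem_rg (X := X) (hS i)] with z h1 h2 h3
  rw [h1, h2, Set.mem_iUnion]
  exact exists_congr fun i => (h3 i).symm

theorem al_rg_null {S : Set Pt} (hS : MeasurableSet S) (h : lam S = 0) : (rg S : RX X) = ⊥ := by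
  refine al_ext ?_
  have h0 : ∀ᵐ y ∂lam, y ∉ S := measure_eq_zero_iff_ae_notMem.1 h
  filter_upwards [mem_rg (X := X) hS, mem_bot (X := X), gen2_snd (X := X) h0] with z h1 h2 h3
  simp [h1, h2, h3]

theorem rmap_rg (e : Hm X X') (S : Set Pt) : rmap e (rg S) = rg S := by
  rw [rg_hull (X := X), rg_hull (X := X')]
  exact al_rmap_rg e (measurableSet_toMeasurable _ _)

theorem rg_null {S : Set Pt} (h : lam S = 0) : (rg S : RX X) = ⊥ := by
  rw [rg_hull]
  exact al_rg_null (measurableSet_toMeasurable _ _) (by rw [measure_toMeasurable, h])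

theorem rg_mono {S T : Set Pt} (h : S ⊆ T) : (rg S : RX X) ≤ rg T := by
  have hS := measurableSet_toMeasurable lam S
  have hT := measurableSet_toMeasurable lam T
  have h1 : lam (toMeasurable lam S ∩ (toMeasurable lam T)ᶜ) = 0 := by
    have h0 : S ∩ (toMeasurable lam T)ᶜ = ∅ := Set.eq_empty_of_forall_notMem fun y hy =>
      hy.2 (subset_toMeasurable _ _ (h hy.1))
    rw [Measure.measure_toMeasurable_inter hT.compl (measure_ne_top _ _), h0, measure_empty]
  have h2 := al_rg_null (X := X) (hS.inter hT.compl) h1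
  rw [rg_inter hS hT.compl, rg_compl hT, ← sdiff_eq, sdiff_eq_bot_iff] at h2
  rw [rg_hull S, rg_hull T]
  exact h2

theorem sh_nil (E : RX X) : sh [] E = E := by
  refine al_ext ?_
  filter_upwards [mem_sh [] E] with z h
  rw [h, app_nil]

theorem sh_append (s t : List Bool) (E : RX X) : sh (s ++ t) E = sh t (sh s E) := by
  refine al_ext ?_
  filter_upwards [mem_sh (s ++ t) E, mem_sh t (sh s E), al_app t (mem_sh s E)] with z h1 h2 h3
  rw [h1, h2, h3, app_append]

theorem sh_ri (s : List Bool) (a : X) : sh s (ri a) = ri a := by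
  refine al_ext ?_
  filter_upwards [mem_sh s (ri a), mem_ri a, al_app s (mem_ri a)] with z h1 h2 h3
  rw [h1, h2, h3]

theorem sh_rg (s : List Bool) {S : Set Pt} (hS : MeasurableSet S) :
    sh s (rg S : RX X) = rg (app s ⁻¹' S) := by
  refine al_ext ?_
  filter_upwards [mem_sh s (rg S : RX X), al_app s (mem_rg (X := X) hS),
    mem_rg (X := X) (measurable_app s hS)] with z h1 h2 h3
  rw [h1, h2, h3, Set.mem_preimage]

theorem sh_cyl_append (s t : List Bool) : sh s (cyl (s ++ t) : RX X) = cyl t := by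
  rw [cyl, sh_rg s (measurableSet_cylS _), cyl]
  congr 1
  exact Set.ext fun _ => app_mem_cylS_append

theorem cyl_nil : (cyl [] : RX X) = ⊤ := by rw [cyl, cylS_nil, rg_univ]

theorem sh_cyl (s : List Bool) : sh s (cyl s : RX X) = ⊤ := by
  have := sh_cyl_append (X := X) s []
  rwa [List.append_nil, cyl_nil] at this

theorem sh_put (s : List Bool) (E : RX X) : sh s (put s E) = E := by
  refine al_ext ?_
  filter_upwards [mem_sh s (put s E), al_app s (mem_put s E)] with z h1 h2
  rw [h1, h2, drop_app]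
  exact and_iff_right (app_mem_cylS s z.2)

theorem put_le (s : List Bool) (E : RX X) : put s E ≤ cyl s := by
  refine le_iff_mem.2 ?_
  filter_upwards [mem_put s E, al_mem_cyl (X := X) s] with z h1 h2
  rw [h1, h2]
  exact And.left

theorem put_sh (s : List Bool) (E : RX X) : put s (sh s E) = E ⊓ cyl s := by
  refine al_ext ?_
  filter_upwards [mem_put s (sh s E), al_dropc s (mem_sh s E), mem_inf E (cyl s),
    al_mem_cyl (X := X) s] with z h1 h2 h3 h4
  rw [h1, h3, h4, and_comm]
  refine and_congr_left fun h => ?_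
  rw [h2 h, app_drop h]

theorem put_inf (s : List Bool) (E F : RX X) : put s (E ⊓ F) = put s E ⊓ put s F := by
  refine al_ext ?_
  filter_upwards [mem_put s (E ⊓ F), al_dropc s (mem_inf E F), mem_inf (put s E) (put s F),
    mem_put s E, mem_put s F] with z h1 h2 h3 h4 h5
  rw [h1, h3, h4, h5, ← and_and_left]
  exact and_congr_right h2

theorem al_put_mono (s : List Bool) {E F : RX X} (h : E ≤ F) : put s E ≤ put s F := by
  rw [← inf_eq_left.2 h, put_inf]
  exact inf_le_right

theorem put_eq_pj (s : List Bool) (E : RX X) : put s E = pj (sh s) E :=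
  eq_of_forall_ge_iff fun F => by
    rw [pj_le]
    refine ⟨fun h => ?_, fun h => ?_⟩
    · rw [← sh_put s E]
      exact hm_mono _ h
    · exact (al_put_mono s h).trans ((put_sh s F).le.trans inf_le_left)

theorem le_of_sh {s : List Bool} {E F : RX X} (h : sh s E ≤ sh s F) : E ⊓ cyl s ≤ F := by
  rw [← put_sh]
  exact (al_put_mono s h).trans ((put_sh s F).le.trans inf_le_left)

theorem cyl_anti {s t : List Bool} (h : s <+: t) : (cyl t : RX X) ≤ cyl s :=
  al_rg_mono (measurableSet_cylS t) (measurableSet_cylS s) (cylS_anti h)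

theorem cyl_disj {s t : List Bool} (h : ¬ s <+: t) (h' : ¬ t <+: s) :
    (cyl s : RX X) ⊓ cyl t = ⊥ := by
  rw [cyl, cyl, ← rg_inter (measurableSet_cylS s) (measurableSet_cylS t)]
  refine al_rg_null ((measurableSet_cylS s).inter (measurableSet_cylS t)) ?_
  have h0 : cylS s ∩ cylS t = ∅ :=
    Set.eq_empty_of_forall_notMem fun y hy => (prefix_or_of_mem hy.1 hy.2).elim h h'
  rw [h0, measure_empty]

theorem iSup_cyl (n : ℕ) : ⨆ s : {s : List Bool // s.length = n}, (cyl s.1 : RX X) = ⊤ := by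
  rw [← rg_univ]
  refine ((rg_iUnion fun s : {s : List Bool // s.length = n} => measurableSet_cylS s.1).symm).trans ?_
  congr 1
  exact Set.eq_univ_of_forall fun y => Set.mem_iUnion.2 ⟨⟨res y n, length_res y n⟩, mem_cylS_res y n⟩

theorem iSup_cyl_root : ⨆ k, (cyl (root k) : RX X) = ⊤ := by
  refine al_ext ?_
  filter_upwards [mem_iSup fun k => (cyl (root k) : RX X), mem_top (X := X),
    eventually_countable_forall.2 fun k => al_mem_cyl (X := X) (root k),
    gen2_snd (X := X) ae_exists_true] with z h1 h2 h3 h4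
  obtain ⟨k, hk⟩ := exists_root h4
  exact iff_of_true (h1.2 ⟨k, (h3 k).2 hk⟩) h2

theorem Pos_ri_inf_cyl (p : X) (s : List Bool) : Pos (ri p ⊓ cyl s) = p := by
  have h : Pos (cyl s : RX X) = ⊤ := by
    refine al_eq_gen ?_
    filter_upwards [In_Pos (cyl s : RX X), mes_rg (X := X) (measurableSet_cylS s)] with U h1 h2
    refine iff_of_true (h1.2 ?_) U.top
    rw [cyl, h2, lam_cylS]
    positivity
  have h1 : pj ri (cyl s : RX X) = ⊤ := h
  rw [Pos, pj_inf', h1, inf_top_eq]

end

end Pool.Agent.Lib.MP_f79ffc_lc.R
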