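import Pool.Agent.Lib.MP_f79ffc_lc.R.Big

/-! The random extension: cardinality. -/

namespace Pool.Agent.Lib.MP_f79ffc_lc.R

open Pool.Agent.Lib.MP_5d9fac_lc Pool.Agent.Lib.MP_f79ffc_lc.U Cardinal

variable {X : Type} [CompleteBooleanAlgebra X] [Fact (CCC X)]

theorem eq_Ev_Big (E : RX X) : E = Ev fun s => Big (1 / 4) (sh s E) :=
  le_antisymm (le_Ev_Big (by norm_num) E) (Ev_Big_le (by norm_num) E)

theorem mk_RX_le : #(RX X) ≤ #X ^ ℵ₀ := by
  have h : Function.Injective fun (E : RX X) (s : List Bool) => Big (1 / 4) (sh s E) :=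
    fun E F h => by
      have h1 : (fun s => Big (1 / 4) (sh s E)) = fun s => Big (1 / 4) (sh s F) := h
      rw [eq_Ev_Big E, h1, ← eq_Ev_Big F]
  simpa using mk_le_of_injective h

end Pool.Agent.Lib.MP_f79ffc_lc.R
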