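import Pool.Agent.Lib.MP_f79ffc_lc.R.Alg

/-! The operator `Ev`, the density theorem and the calculus of `Big`, `Gt`, `Pos`. -/

namespace Pool.Agent.Lib.MP_f79ffc_lc.R

open Pool.Agent.Lib.MP_5d9fac_lc Pool.Agent.Lib.MP_f79ffc_lc.U MeasureTheory Filter Cardinal

/-! ### the density theorem on Cantor space -/

theorem ev_cylS_subset {V : Set Pt} (hV : IsOpen V) {y : Pt} (hy : y ∈ V) :
    ∀ᶠ n in atTop, cylS (res y n) ⊆ V := by
  obtain ⟨I, u, hu, hI⟩ := isOpen_pi_iff.1 hV y hy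
  filter_upwards [eventually_gt_atTop (I.sup id)] with n hn z hz
  refine hI fun i hi => ?_
  have h1 : i < n := (Finset.le_sup (f := id) hi).trans_lt hn
  rw [mem_cylS.1 hz i (by simpa using h1), getElem_res]
  exact (hu i hi).2

theorem eq_res_of_prefix {t : List Bool} {y : Pt} {n : ℕ} (h : t <+: res y n) :
    t = res y t.length :=
  ((mem_cylS_iff_prefix (by simpa using h.length_le)).2 h).symm

theorem density {S : Set Pt} (hS : MeasurableSet S) {c : ℝ} (hc : c < 1) :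
    ∀ᵐ y ∂lam, y ∈ S → ∀ᶠ n in atTop, c ≤ lam.real (app (res y n) ⁻¹' S) := by
  classical
  set B := {y | ¬ (y ∈ S → ∀ᶠ n in atTop, c ≤ lam.real (app (res y n) ⁻¹' S))} with hB
  have key : ∀ V : Set Pt, B ⊆ V → IsOpen V → lam B ≤ ENNReal.ofReal c * lam V := by
    intro V hBV hV
    let T : List Bool → Prop := fun s => cylS s ⊆ V ∧ lam.real (app s ⁻¹' S) < c
    let M := {s : List Bool // T s ∧ ∀ t, T t → t <+: s → t = s}
    have h1 : B ⊆ ⋃ s : M, S ∩ cylS s.1 := fun y hy => by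
      have hy' := hy
      simp only [hB, Set.mem_ofPred_eq, Classical.not_imp, not_eventually, not_le] at hy'
      have hex : ∃ n, T (res y n) := (hy'.2.and_eventually (ev_cylS_subset hV (hBV hy))).exists.imp
        fun n h => ⟨h.2, h.1⟩
      refine Set.mem_iUnion.2 ⟨⟨res y (Nat.find hex), Nat.find_spec hex, fun t ht hp => ?_⟩,
        hy'.1, mem_cylS_res y _⟩
      have e := eq_res_of_prefix hp
      have h2 : Nat.find hex ≤ t.length := Nat.find_le (e ▸ ht)
      exact hp.eq_of_length_le (by simpa using h2)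
    have h2 : Pairwise (Function.onFun Disjoint fun s : M => cylS s.1) := fun s t hst =>
      Set.disjoint_left.2 fun y hs ht => hst (Subtype.ext ((prefix_or_of_mem hs ht).elim
        (t.2.2 _ s.2.1) fun h => (s.2.2 _ t.2.1 h).symm))
    calc lam B ≤ ∑' s : M, lam (S ∩ cylS s.1) := (measure_mono h1).trans (measure_iUnion_le _)
      _ ≤ ∑' s : M, ENNReal.ofReal c * lam (cylS s.1) := ENNReal.tsum_le_tsum fun s => by
          have h3 : 0 ≤ c := measureReal_nonneg.trans s.2.1.2.le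
          rw [← ofReal_measureReal (s := S ∩ cylS s.1), ← ofReal_measureReal (s := cylS s.1),
            ← ENNReal.ofReal_mul h3, lam_inter_cylS _ hS, lam_cylS, mul_comm]
          exact ENNReal.ofReal_le_ofReal
            (mul_le_mul_of_nonneg_right s.2.1.2.le (by positivity))
      _ = ENNReal.ofReal c * lam (⋃ s : M, cylS s.1) := by
          rw [ENNReal.tsum_mul_left, measure_iUnion h2 fun s => measurableSet_cylS s.1]
      _ ≤ ENNReal.ofReal c * lam V :=
          mul_le_mul_right (measure_mono (Set.iUnion_subset fun s => s.2.1.1)) _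
  change lam B = 0
  by_contra h0
  have h1 : ENNReal.ofReal c < 1 := ENNReal.ofReal_lt_one.2 hc
  obtain ⟨r, hr, hr1⟩ : ∃ r, lam B < r ∧ ENNReal.ofReal c * r < lam B := by
    have h2 : ∀ᶠ r in nhds (lam B), ENNReal.ofReal c * r < lam B :=
      (ENNReal.Tendsto.const_mul tendsto_id (Or.inr ENNReal.ofReal_ne_top)).eventually_lt_const
        (by simpa using ENNReal.mul_lt_mul_left h0 (measure_ne_top lam B) h1)
    have : (nhdsWithin (lam B) (Set.Ioi (lam B))).NeBot :=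
      nhdsGT_neBot_of_exists_gt ⟨⊤, measure_lt_top lam B⟩
    have h3 : ∀ᶠ r in nhdsWithin (lam B) (Set.Ioi (lam B)), lam B < r := self_mem_nhdsWithin
    exact (h3.and (h2.filter_mono nhdsWithin_le_nhds)).exists
  obtain ⟨V, h2, h3, h4⟩ := Set.exists_isOpen_lt_of_lt B r hr
  exact ((key V h2 h3).trans (mul_le_mul_right h4.le _)).not_gt hr1

theorem ae_app (s : List Bool) {P : Pt → Prop} (h : ∀ᵐ y ∂lam, P y) : ∀ᵐ y ∂lam, P (app s y) := by
  obtain ⟨N, h1, h2, h3⟩ := exists_measurable_superset_of_null h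
  have h4 := lam_inter_cylS s h2
  rw [measureReal_def, measure_mono_null Set.inter_subset_left h3, ENNReal.toReal_zero, eq_comm,
    mul_eq_zero, measureReal_eq_zero_iff] at h4
  exact measure_mono_null (fun y hy => (h1 hy : app s y ∈ N)) (h4.resolve_left (by positivity))

section
variable {X X' : Type} [CompleteBooleanAlgebra X] [CompleteBooleanAlgebra X']

theorem gen2_app (s : List Bool) {P : Ult X × Pt → Prop} (h : ∀ᶠ z in gen2 X, P z) :
    ∀ᶠ z in gen2 X, P (z.1, app s z.2) :=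
  gen2_iff.2 ((gen2_iff.1 h).mono fun _ hU => ae_app s hU)

theorem In_finsetInf (U : Ult X) {ι : Type} (F : Finset ι) (f : ι → X) :
    U.In (F.inf f) ↔ ∀ j ∈ F, U.In (f j) :=
  ⟨fun h _ hj => U.mono (Finset.inf_le hj) h,
    fun h => Finset.inf_induction U.top (fun _ h _ h' => U.inf h h') h⟩

variable [Fact (CCC X)] [Fact (CCC X')]

theorem eq_of_mem {E F : RX X} (h : ∀ᶠ z in gen2 X, Mem E z ↔ Mem F z) : E = F :=
  le_antisymm (le_iff_mem.2 (h.mono fun _ h => h.1)) (le_iff_mem.2 (h.mono fun _ h => h.2))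

theorem mem_finsetInf {ι : Type} (F : Finset ι) (E : ι → RX X) :
    ∀ᶠ z in gen2 X, Mem (F.inf E) z ↔ ∀ j ∈ F, Mem (E j) z := by
  rw [Finset.inf_eq_iInf, iInf_subtype']
  exact (mem_iInf _).mono fun z hz => hz.trans Subtype.forall

theorem mes_top : ∀ᶠ U in gen X, mes (⊤ : RX X) U = 1 := by
  rw [← rg_univ]
  exact (mes_rg MeasurableSet.univ).mono fun U h => h.trans probReal_univ

theorem mes_sh (s : List Bool) (E : RX X) :
    ∀ᶠ U in gen X, mes (sh s E) U = lam.real (app s ⁻¹' sec E U) :=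
  (gen2_iff.1 (mem_sh s E)).mono fun _ h => measureReal_congr (h.mono fun _ h => propext h)

/-! ### `Ev` -/

theorem Ev_eq (g : List Bool → X) : Ev g = ⨆ m, ⨅ n, ⨅ _ : m ≤ n,
    ⨆ s : {s : List Bool // s.length = n}, cyl s.1 ⊓ ri (g s.1) := by
  have h1 : ∀ n, ∀ᶠ z in gen2 X, Mem (⨆ s : {s : List Bool // s.length = n},
      cyl s.1 ⊓ ri (g s.1)) z ↔ z.1.In (g (res z.2 n)) := fun n => by
    filter_upwards [mem_iSup fun s : {s : List Bool // s.length = n} => cyl s.1 ⊓ ri (g s.1),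
      eventually_countable_forall.2 fun s => mem_inf (cyl s) (ri (g s)),
      eventually_countable_forall.2 fun s => mem_rg (X := X) (measurableSet_cylS s),
      eventually_countable_forall.2 fun s => mem_ri (g s)] with z a b c d
    rw [a]
    refine ⟨fun ⟨s, hs⟩ => ?_, fun h => ⟨⟨_, length_res z.2 n⟩,
      (b _).2 ⟨(c _).2 (mem_cylS_res _ _), (d _).2 h⟩⟩⟩
    have h2 : res z.2 s.1.length = s.1 := (c _).1 ((b _).1 hs).1
    rw [← s.2, h2]
    exact (d _).1 ((b _).1 hs).2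
  have key : ∀ A : ℕ → RX X, (∀ n, ∀ᶠ z in gen2 X, Mem (A n) z ↔ z.1.In (g (res z.2 n))) →
      Ev g = ⨆ m, ⨅ n, ⨅ _ : m ≤ n, A n := fun A hA => eq_of_mem <| by
    filter_upwards [mem_Ev g, eventually_countable_forall.2 hA,
      mem_iSup fun m => ⨅ n, ⨅ _ : m ≤ n, A n,
      eventually_countable_forall.2 fun m => mem_iInf fun n => ⨅ _ : m ≤ n, A n,
      eventually_countable_forall.2 fun m => eventually_countable_forall.2 fun n =>
        mem_iInf fun _ : m ≤ n => A n] with z a b c d e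
    simp only [a, c, d, e, b, eventually_atTop]
  exact key _ h1

/-- only long cells that contain a `1` matter -/
theorem Ev_mono' {g g' : List Bool → X} (m : ℕ)
    (h : ∀ s, m ≤ s.length → true ∈ s → g s ≤ g' s) : Ev g ≤ Ev g' := by
  rw [le_iff_mem]
  filter_upwards [mem_Ev g, mem_Ev g', gen2_snd ae_exists_true] with z a b ⟨j, hj⟩ hz
  rw [b]
  filter_upwards [a.1 hz, eventually_ge_atTop m, eventually_gt_atTop j] with n h1 h2 h3
  exact z.1.mono (h _ (by simpa using h2) (true_mem_res hj h3)) h1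

theorem Ev_mono {g g' : List Bool → X} (h : ∀ s, g s ≤ g' s) : Ev g ≤ Ev g' :=
  Ev_mono' 0 fun s _ _ => h s

theorem Ev_inf (g g' : List Bool → X) : Ev g ⊓ Ev g' = Ev fun s => g s ⊓ g' s := by
  refine eq_of_mem ?_
  filter_upwards [mem_Ev g, mem_Ev g', mem_Ev fun s => g s ⊓ g' s, mem_inf (Ev g) (Ev g')]
    with z a b c d
  simp only [a, b, c, d, Ult.inf_iff, eventually_and]

theorem Ev_const (a : X) : Ev (fun _ => a) = ri a := by
  refine eq_of_mem ?_
  filter_upwards [mem_Ev fun _ => a, mem_ri a] with z a b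
  rw [a, b, eventually_const]

theorem ri_inf_Ev (a : X) (g : List Bool → X) : ri a ⊓ Ev g = Ev fun s => a ⊓ g s := by
  rw [← Ev_const, Ev_inf]

theorem sh_Ev (s : List Bool) (g : List Bool → X) : sh s (Ev g) = Ev fun r => g (s ++ r) := by
  refine eq_of_mem ?_
  filter_upwards [mem_sh s (Ev g), gen2_app s (mem_Ev g), mem_Ev fun r => g (s ++ r)] with z a b c
  rw [a, b, c, iff_comm]
  conv_rhs => rw [← map_add_atTop_eq_nat s.length, eventually_map]
  simp only [add_comm _ s.length, res_app]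

theorem Ev_le_ri (g : List Bool → X) : Ev g ≤ ri (⨆ s, g s) :=
  (Ev_mono fun s => le_iSup g s).trans (Ev_const _).le

theorem exists_of_Ev_ne_bot {g : List Bool → X} (h : Ev g ≠ ⊥) (m : ℕ) :
    ∃ s, m ≤ s.length ∧ true ∈ s ∧ g s ≠ ⊥ := by
  by_contra hc
  push Not at hc
  refine h (le_bot_iff.1 ((Ev_mono' (g' := fun _ => ⊥) m fun s h1 h2 => (hc s h1 h2).le).trans ?_))
  exact ((Ev_const _).trans (BotHomClass.map_bot ri)).le

theorem In_Big_sh (ε : ℝ) (E : RX X) : ∀ᶠ U in gen X, ∀ s,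
    U.In (Big ε (sh s E)) ↔ 1 - ε ≤ lam.real (app s ⁻¹' sec E U) :=
  eventually_countable_forall.2 fun s => by
    filter_upwards [In_Big ε (sh s E), mes_sh s E] with U a b
    rw [a, b]

/-- (b) density -/
theorem le_Ev_Big {ε : ℝ} (hε : 0 < ε) (E : RX X) : E ≤ Ev fun s => Big ε (sh s E) := by
  rw [le_iff_mem, gen2_iff]
  filter_upwards [gen2_iff.1 (mem_Ev fun s => Big ε (sh s E)), In_Big_sh ε E] with U a b
  filter_upwards [a, density (measurableSet_sec E U) (sub_lt_self 1 hε)] with y c d hy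
  exact c.2 ((d hy).mono fun n => (b _).2)

theorem Ev_Big_le {ε : ℝ} (hε : ε < 1) (E : RX X) : (Ev fun s => Big ε (sh s E)) ≤ E := by
  obtain ⟨c, h1, h2⟩ := exists_between hε
  rw [le_iff_mem, gen2_iff]
  filter_upwards [gen2_iff.1 (mem_Ev fun s => Big ε (sh s E)), In_Big_sh ε E] with U a b
  filter_upwards [a, density (measurableSet_sec E U).compl h2] with y c d hy
  by_contra hn
  obtain ⟨n, h3, h4⟩ := ((c.1 hy).and (d hn)).exists
  rw [Set.preimage_compl, probReal_compl_eq_one_sub (measurable_app _ (measurableSet_sec E U))] at h4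
  linarith [(b _).1 h3]

/-! ### `Big`, `Gt`, `Pos` -/

theorem mes_le {E F : RX X} (h : E ≤ F) : ∀ᶠ U in gen X, mes E U ≤ mes F U :=
  (mes_mono (p := ⊤) (inf_le_right.trans h)).mono fun U h => h U.top

theorem Big_mono {ε δ : ℝ} (h : ε ≤ δ) {E F : RX X} (hE : E ≤ F) : Big ε E ≤ Big δ F := by
  rw [le_iff_gen]
  filter_upwards [In_Big ε E, In_Big δ F, mes_le hE] with U a b c hU
  exact b.2 (by linarith [a.1 hU])

theorem Big_top {ε : ℝ} (h : 0 ≤ ε) : Big ε (⊤ : RX X) = ⊤ := by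
  rw [eq_top_iff, le_iff_gen]
  filter_upwards [In_Big ε (⊤ : RX X), mes_top] with U a b _
  exact a.2 (by linarith)

theorem Big_loc {p : X} {E F : RX X} (h : ri p ⊓ E ≤ F) (ε : ℝ) : p ⊓ Big ε E ≤ Big ε F := by
  rw [le_iff_gen]
  filter_upwards [In_Big ε E, In_Big ε F, mes_mono h] with U a b c hU
  exact b.2 ((a.1 (U.inf_iff.1 hU).2).trans (c (U.inf_iff.1 hU).1))

theorem Gt_loc {p : X} {E F : RX X} (h : ri p ⊓ E ≤ F) (u : ℝ) : p ⊓ Gt u E ≤ Gt u F := by
  rw [le_iff_gen]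
  filter_upwards [In_Gt u E, In_Gt u F, mes_mono h] with U a b c hU
  exact b.2 ((a.1 (U.inf_iff.1 hU).2).trans_le (c (U.inf_iff.1 hU).1))

theorem le_Big_ri {ε : ℝ} (h : 0 ≤ ε) (a : X) : a ≤ Big ε (ri a) := by
  have := Big_loc (p := a) (E := ⊤) (F := ri a) inf_le_left ε
  rwa [Big_top h, inf_top_eq] at this

theorem ri_le_iff {a : X} {E : RX X} : ri a ≤ E ↔ a ≤ Big 0 E := by
  refine ⟨fun h => (le_Big_ri le_rfl a).trans (Big_mono le_rfl h), fun h => ?_⟩
  rw [le_iff_mem, gen2_iff]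
  filter_upwards [gen2_iff.1 (mem_ri a), In_Big 0 E, le_iff_gen.1 h] with U b c d
  by_cases hU : U.In a
  · have h1 : lam.real (sec E U)ᶜ = 0 := by
      rw [probReal_compl_eq_one_sub (measurableSet_sec E U)]
      exact sub_eq_zero.2 (le_antisymm ((sub_zero _).ge.trans (c.1 (d hU))) (mes_le_one E U))
    have h2 : ∀ᵐ y ∂lam, y ∈ sec E U := (measureReal_eq_zero_iff (measure_ne_top _ _)).1 h1
    exact h2.mono fun y hy _ => hy
  · exact b.mono fun y hy h => (hU (hy.1 h)).elim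

theorem Big_rg {ε : ℝ} {S : Set Pt} (hS : MeasurableSet S) (h : 1 - ε ≤ lam.real S) :
    Big ε (rg S : RX X) = ⊤ := by
  rw [eq_top_iff, le_iff_gen]
  filter_upwards [In_Big ε (rg S : RX X), mes_rg hS] with U a b _
  exact a.2 (b ▸ h)

/-- (c) -/
theorem Big_inf (a b : ℝ) (E F : RX X) : Big a E ⊓ Big b F ≤ Big (a + b) (E ⊓ F) := by
  rw [le_iff_gen]
  filter_upwards [In_Big a E, In_Big b F, In_Big (a + b) (E ⊓ F), mes_sup_inf E F] with U p q r s hU
  exact r.2 (by linarith [p.1 (U.inf_iff.1 hU).1, q.1 (U.inf_iff.1 hU).2, mes_le_one (E ⊔ F) U])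

theorem Big_le_Pos {a : ℝ} (h : a < 1) (E : RX X) : Big a E ≤ Pos E := by
  rw [le_iff_gen]
  filter_upwards [In_Big a E, In_Pos E] with U p q hU
  exact q.2 (by linarith [p.1 hU])

theorem Gt_zero (E : RX X) : Gt 0 E = Pos E := by
  refine eq_of_gen ?_
  filter_upwards [In_Gt 0 E, In_Pos E] with U p q
  rw [p, q]

theorem Gt_eq_compl (u : ℝ) (E : RX X) : Gt u E = (Big u Eᶜ)ᶜ := by
  refine eq_of_gen ?_
  filter_upwards [In_Gt u E, In_Big u Eᶜ, mes_compl E] with U p q r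
  rw [p, U.compl_iff, q, r, not_le, sub_lt_sub_iff_left]

theorem pj_Big_le (e : Hm X X') (ε : ℝ) (E : RX X') :
    pj e (Big ε E) ≤ Big ε (pj (rmap e) E) := by
  rw [pj_le, ← Big_rmap]
  exact Big_mono le_rfl (le_map_pj _ _)

theorem markov_pt {ι : Type} (F : Finset ι) {A : ι → Set Pt} (hA : ∀ j, MeasurableSet (A j)) {δ : ℝ}
    (hδ : 0 < δ) (h : ∀ j ∈ F, 1 - δ * δ ≤ lam.real (A j)) {G : Set Pt} (hG : MeasurableSet G)
    (H : ∀ᵐ y ∂lam, ∀ S ⊆ F, (1 - δ) * F.card ≤ S.card → (∀ j ∈ S, y ∈ A j) → y ∈ G) :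
    1 - δ ≤ lam.real G := by
  classical
  rcases F.eq_empty_or_nonempty with rfl | hF
  · have : G =ᵐ[lam] Set.univ := H.mono fun y hy => propext
      ⟨fun _ => trivial, fun _ => hy ∅ subset_rfl (by simp) (by simp)⟩
    rw [measureReal_congr this, probReal_univ]
    linarith
  have hc : (0 : ℝ) < F.card := Nat.cast_pos.2 hF.card_pos
  let f : Pt → ℝ := fun y => ∑ j ∈ F, (A j)ᶜ.indicator 1 y
  have hi : ∀ j ∈ F, Integrable ((A j)ᶜ.indicator (1 : Pt → ℝ)) lam := fun j _ =>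
    (integrable_const 1).indicator (hA j).compl
  have h1 := mul_meas_ge_le_integral_of_nonneg (μ := lam) (f := f)
    (.of_forall fun y => Finset.sum_nonneg fun j _ => Set.indicator_nonneg (fun _ _ => zero_le_one) y)
    (integrable_finsetSum F hi) (δ * F.card)
  have h2 : ∫ y, f y ∂lam ≤ δ * F.card * δ := by
    rw [integral_finsetSum F hi]
    refine (Finset.sum_le_card_nsmul F _ (δ * δ) fun j hj => ?_).trans (le_of_eq ?_)
    · rw [integral_indicator_one (hA j).compl, probReal_compl_eq_one_sub (hA j)]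
      linarith [h j hj]
    · rw [nsmul_eq_mul]; ring
  have h3 : lam.real Gᶜ ≤ lam.real {y | δ * F.card ≤ f y} := by
    refine ENNReal.toReal_mono (measure_ne_top _ _) (measure_mono_ae (H.mono fun y hy hn => ?_))
    have h4 : f y = (F.filter fun j => ¬ y ∈ A j).card := by
      simp only [f, Set.indicator_apply, Set.mem_compl_iff, Pi.one_apply, Finset.sum_boole]
    have h5 : ((F.filter fun j => y ∈ A j).card : ℝ) + (F.filter fun j => ¬ y ∈ A j).card =
        F.card := by exact_mod_cast Finset.card_filter_add_card_filter_not _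
    have h6 : ¬ (1 - δ) * F.card ≤ (F.filter fun j => y ∈ A j).card := fun h6 =>
      hn (hy _ (Finset.filter_subset _ _) h6 fun j hj => (Finset.mem_filter.1 hj).2)
    change δ * F.card ≤ f y
    linarith
  rw [probReal_compl_eq_one_sub hG] at h3
  linarith [le_of_mul_le_mul_left (h1.trans h2) (mul_pos hδ hc)]

/-- (d) Markov -/
theorem markov {ι : Type} (F : Finset ι) (E : ι → RX X) {δ : ℝ} (hδ : 0 < δ) :
    F.inf (fun j => Big (δ * δ) (E j)) ≤
      Big δ (⨆ S : {S : Finset ι // S ⊆ F ∧ (1 - δ) * F.card ≤ S.card}, S.1.inf E) := by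
  have : Finite {S : Finset ι // S ⊆ F ∧ (1 - δ) * F.card ≤ S.card} :=
    F.powerset.finite_toSet.subset fun S hS => Finset.mem_powerset.2 hS.1
  rw [le_iff_gen]
  filter_upwards [In_Big δ (⨆ S : {S : Finset ι // S ⊆ F ∧ (1 - δ) * F.card ≤ S.card}, S.1.inf E),
    (eventually_all_finset F).2 fun j _ => In_Big (δ * δ) (E j),
    gen2_iff.1 (mem_iSup fun S : {S : Finset ι // S ⊆ F ∧ (1 - δ) * F.card ≤ S.card} => S.1.inf E),
    gen2_iff.1 (eventually_countable_forall.2
      fun S : {S : Finset ι // S ⊆ F ∧ (1 - δ) * F.card ≤ S.card} => mem_finsetInf S.1 E)]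
    with U a b c d hU
  refine a.2 (markov_pt F (fun j => measurableSet_sec (E j) U) hδ
    (fun j hj => (b j hj).1 ((In_finsetInf U _ _).1 hU j hj)) (measurableSet_sec _ U) ?_)
  filter_upwards [c, d] with y p q S h1 h2 h3
  exact p.2 ⟨⟨S, h1, h2⟩, (q _).2 h3⟩

/-- (e) -/
theorem Big_iSup_le {E : ℕ → RX X} (hE : Monotone E) {ε δ : ℝ} (h : ε < δ) :
    Big ε (⨆ k, E k) ≤ ⨆ k, Big δ (E k) := by
  rw [le_iff_gen]
  filter_upwards [In_Big ε (⨆ k, E k), eventually_countable_forall.2 fun k => In_Big δ (E k),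
    mes_iSup hE] with U a b c hU
  obtain ⟨k, hk⟩ := (c.eventually_const_lt (show 1 - δ < _ by linarith [a.1 hU])).exists
  exact U.mono (le_iSup (fun k => Big δ (E k)) k) ((b k).2 hk.le)

/-- (SUB): `θ n` chooses the `n`-th set of a cover, of cost `r n k` -/
theorem sub {κ : Type} [Countable κ] {p : X} {ε : ℝ} (hε : 0 ≤ ε) (θ : ℕ → κ → X) (r : ℕ → κ → ℝ)
    (E : ℕ → κ → RX X) (hd : ∀ n k k', k ≠ k' → p ⊓ θ n k ⊓ θ n k' = ⊥)
    (hE : ∀ n k, p ⊓ θ n k ≤ Big (r n k) (E n k)ᶜ)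
    (hs : ∀ (F : Finset ℕ) (f : ℕ → κ), p ⊓ F.inf (fun n => θ n (f n)) ≠ ⊥ →
      ∑ n ∈ F, r n (f n) ≤ ε) :
    p ≤ Big ε (⨆ n, ⨆ k, ri (θ n k) ⊓ E n k)ᶜ := by
  classical
  rcases isEmpty_or_nonempty κ with _ | _
  · simp only [iSup_of_empty, iSup_bot, compl_bot, Big_top hε, le_top]
  have ef : ∀ {P : ℕ → κ → Ult X × Pt → Prop}, (∀ n k, ∀ᶠ z in gen2 X, P n k z) →
      ∀ᶠ z in gen2 X, ∀ n k, P n k z := fun h =>
    eventually_countable_forall.2 fun n => eventually_countable_forall.2 (h n)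
  have h0 : ∀ᶠ z in gen2 X, Mem (⨆ n, ⨆ k, ri (θ n k) ⊓ E n k) z →
      ∃ n k, z.1.In (θ n k) ∧ Mem (E n k) z := by
    filter_upwards [mem_iSup fun n => ⨆ k, ri (θ n k) ⊓ E n k, eventually_countable_forall.2
      fun n => mem_iSup fun k => ri (θ n k) ⊓ E n k, ef fun n k => mem_inf (ri (θ n k)) (E n k),
      ef fun n k => mem_ri (θ n k)] with z a b c d
    simp only [a, b, c, d, imp_self]
  rw [le_iff_gen]
  filter_upwards [In_Big ε (⨆ n, ⨆ k, ri (θ n k) ⊓ E n k)ᶜ,
    mes_compl (⨆ n, ⨆ k, ri (θ n k) ⊓ E n k), gen2_iff.1 h0,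
    eventually_countable_forall.2 fun n => eventually_countable_forall.2 fun k =>
      (In_Big (r n k) (E n k)ᶜ).and (mes_compl (E n k))] with U a b c d hU
  rw [a, b, sub_le_sub_iff_left]
  choose! f hf using fun n (h : ∃ k, U.In (θ n k)) => h
  have h1 : ∀ n k, U.In (θ n k) → k = f n := fun n k hk => by
    by_contra hne
    exact U.not_bot (hd n k _ hne ▸ U.inf (U.inf hU hk) (hf n ⟨k, hk⟩))
  have h2 : ∀ n, U.In (θ n (f n)) → mes (E n (f n)) U ≤ r n (f n) := fun n hn => by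
    have := (d n _).1.1 (U.mono (hE n _) (U.inf hU hn))
    rwa [(d n _).2, sub_le_sub_iff_left] at this
  let A : ℕ → Set Pt := fun n => if U.In (θ n (f n)) then sec (E n (f n)) U else ∅
  have h3 : lam (sec (⨆ n, ⨆ k, ri (θ n k) ⊓ E n k) U) ≤ lam (⋃ n, A n) :=
    measure_mono_ae (c.mono fun y hy h => by
      obtain ⟨n, k, h4, h5⟩ := hy h
      obtain rfl := h1 n k h4
      exact Set.mem_iUnion.2 ⟨n, by rw [show A n = _ from if_pos h4]; exact h5⟩)
  refine ENNReal.toReal_le_of_le_ofReal hε (h3.trans ((measure_iUnion_le A).trans ?_))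
  rw [ENNReal.tsum_eq_iSup_sum]
  refine iSup_le fun F => ?_
  have h4 := hs (F.filter fun n => U.In (θ n (f n))) f fun e => U.not_bot (e ▸ U.inf hU
    ((In_finsetInf U _ _).2 fun n hn => (Finset.mem_filter.1 hn).2))
  refine le_trans ?_ (ENNReal.ofReal_le_ofReal h4)
  rw [ENNReal.ofReal_sum_of_nonneg fun n hn =>
    (mes_nonneg _ U).trans (h2 n (Finset.mem_filter.1 hn).2), Finset.sum_filter]
  refine Finset.sum_le_sum fun n _ => ?_
  by_cases hn : U.In (θ n (f n))
  · rw [if_pos hn, show A n = _ from if_pos hn, ← ofReal_measureReal]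
    exact ENNReal.ofReal_le_ofReal (h2 n hn)
  · rw [if_neg hn, show A n = _ from if_neg hn, measure_empty]

theorem sh_Zs {s : List Bool} {k : ℕ} (h : s.length ≤ k) (n : ℕ) :
    sh s (rg (Zs k n) : RX X) = rg (Zs (k - s.length) n) := by
  rw [sh_rg s (measurableSet_Zs k n)]
  exact congrArg rg (Set.ext fun _ => app_mem_Zs h)

theorem Big_compl_Zs (k n : ℕ) : Big ((1 / 2) ^ (n + 2)) (rg (Zs k n) : RX X)ᶜ = ⊤ := by
  rw [← rg_compl (measurableSet_Zs k n)]
  exact Big_rg (measurableSet_Zs k n).compl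
    (by rw [probReal_compl_eq_one_sub (measurableSet_Zs k n), lam_Zs])

theorem Pos_sh_le (s : List Bool) (E : RX X) : Pos (sh s E) ≤ Pos E :=
  pj_le.2 ((hm_mono (sh s) (le_map_pj ri E)).trans (sh_ri s _).le)

/-- richness: a positive set meets all far sets `Zs k n` -/
theorem Pos_le_Zs (E : RX X) (n : ℕ) :
    Pos E ≤ ⨆ k, ⨅ k', ⨅ _ : k ≤ k', Pos (E ⊓ rg (Zs k' n)) := by
  have h0 : (0 : ℝ) < (1 / 2) ^ (n + 2) := by positivity
  refine (pj_le.2 ((le_Ev_Big (half_pos h0) E).trans (Ev_le_ri _))).trans (iSup_le fun s =>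
    le_iSup_of_le s.length (le_iInf₂ fun k hk => le_trans ?_ (Pos_sh_le s _)))
  have h1 := Big_inf ((1 / 2) ^ (n + 2) / 2) (1 - (1 / 2) ^ (n + 2)) (sh s E)
    (rg (Zs (k - s.length) n))
  rw [Big_rg (measurableSet_Zs _ n) (by rw [lam_Zs]; linarith), inf_top_eq] at h1
  rw [InfHomClass.map_inf, sh_Zs hk]
  exact h1.trans (Big_le_Pos (by linarith) _)

end

end Pool.Agent.Lib.MP_f79ffc_lc.R
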