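import Pool.Agent.Lib.MP_f79ffc_lc.U.Base

/-! Generic ultrafilters of a complete Boolean algebra and the sigma-algebra of sets with a value. -/

namespace Pool.Agent.Lib.MP_f79ffc_lc.R

open Pool.Agent.Lib.MP_5d9fac_lc Pool.Agent.Lib.MP_f79ffc_lc.U Filter

variable {X X' : Type} [CompleteBooleanAlgebra X] [CompleteBooleanAlgebra X']

theorem hm_top (e : Hm X X') : e ⊤ = ⊤ := TopHomClass.map_top e
theorem hm_bot (e : Hm X X') : e ⊥ = ⊥ := BotHomClass.map_bot e
theorem hm_inf (e : Hm X X') (a b : X) : e (a ⊓ b) = e a ⊓ e b := InfHomClass.map_inf e a b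
theorem hm_sup (e : Hm X X') (a b : X) : e (a ⊔ b) = e a ⊔ e b := SupHomClass.map_sup e a b

/-- ultrafilters that respect the supremum of `T` -/
def Resp (T : Set X) : Set (Ult X) := {U | U.In (sSup T) → ∃ t ∈ T, U.In t}

/-- ultrafilters meeting countably many prescribed suprema -/
def gen (X : Type) [CompleteBooleanAlgebra X] : Filter (Ult X) :=
  countableGenerate (Set.range Resp)

instance : CountableInterFilter (gen X) := by unfold gen; infer_instance

theorem resp_mem (T : Set X) : Resp T ∈ gen X :=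
  mem_countableGenerate_iff.2 ⟨{Resp T}, by simp, by simp, by simp⟩

theorem exists_resp {a : X} (ha : a ≠ ⊥) (T : ℕ → Set X) :
    ∃ U : Ult X, U.In a ∧ ∀ n, U ∈ Resp (T n) := by
  have step : ∀ (n : ℕ) (p : {p : X // p ≠ ⊥}), ∃ q : {p : X // p ≠ ⊥}, q.1 ≤ p.1 ∧
      (q.1 ≤ (sSup (T n))ᶜ ∨ ∃ t ∈ T n, q.1 ≤ t) := fun n p => by
    by_cases h : p.1 ⊓ sSup (T n) = ⊥
    · exact ⟨p, le_rfl, Or.inl (le_compl_iff_disjoint_right.2 (disjoint_iff.2 h))⟩
    · rw [sSup_eq_iSup'] at h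
      obtain ⟨t, ht⟩ := exists_inf_ne_bot h
      exact ⟨⟨_, ht⟩, inf_le_left, Or.inr ⟨t, t.2, inf_le_right⟩⟩
  choose f hf hf' using step
  let p : ℕ → {p : X // p ≠ ⊥} := fun n => Nat.rec ⟨a, ha⟩ f n
  have hp : Antitone fun n => (p n).1 := antitone_nat_of_succ_le fun n => hf n (p n)
  choose W hW using fun n => Ult.exists_of_ne_bot (p n).2
  let U : Ult X :=
    { In := fun x => ∀ᶠ n in hyperfilter ℕ, (W n).In x
      top := Eventually.of_forall fun n => (W n).top
      not_bot := fun h => h.exists.elim fun n hn => (W n).not_bot hn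
      mono := fun hab h => h.mono fun n hn => (W n).mono hab hn
      inf := fun h h' => (h.and h').mono fun n hn => (W n).inf hn.1 hn.2
      em := fun x => Ultrafilter.eventually_or.1 (Eventually.of_forall fun n => (W n).em x) }
  have hU : ∀ n, U.In (p n).1 := fun n =>
    ((eventually_ge_atTop n).filter_mono Nat.hyperfilter_le_atTop).mono fun m hm =>
      (W m).mono (hp hm) (hW m)
  refine ⟨U, hU 0, fun n h => ?_⟩
  rcases hf' n (p n) with h1 | ⟨t, ht, h1⟩
  · exact absurd h (U.compl_iff.1 (U.mono h1 (hU (n + 1))))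
  · exact ⟨t, ht, U.mono h1 (hU (n + 1))⟩

theorem exists_gen {a : X} (ha : a ≠ ⊥) {P : Ult X → Prop} (h : ∀ᶠ U in gen X, P U) :
    ∃ U, U.In a ∧ P U := by
  obtain ⟨S, hS, hc, hP⟩ := mem_countableGenerate_iff.1 h
  obtain ⟨f, hf⟩ := (hc.insert (Resp ∅)).exists_eq_range (Set.insert_nonempty _ _)
  have h1 : ∀ n, ∃ T, Resp T = f n := fun n => by
    have : f n ∈ insert (Resp ∅) S := hf ▸ Set.mem_range_self n
    rcases this with h | h
    · exact ⟨_, h.symm⟩
    · exact hS h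
  choose T hT using h1
  obtain ⟨U, h2, h3⟩ := exists_resp ha T
  refine ⟨U, h2, hP fun t ht => ?_⟩
  obtain ⟨n, rfl⟩ : t ∈ Set.range f := hf ▸ Set.mem_insert_of_mem _ ht
  exact hT n ▸ h3 n

theorem le_iff_gen {a b : X} : a ≤ b ↔ ∀ᶠ U in gen X, U.In a → U.In b := by
  refine ⟨fun h => Eventually.of_forall fun U => U.mono h, fun h => ?_⟩
  by_contra hab
  obtain ⟨U, h1, h2⟩ := exists_gen (a := a ⊓ bᶜ)
    (fun h0 => hab (by rwa [← sdiff_eq, sdiff_eq_bot_iff] at h0)) h
  rw [U.inf_iff, U.compl_iff] at h1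
  exact h1.2 (h2 h1.1)

theorem eq_of_gen {a b : X} (h : ∀ᶠ U in gen X, U.In a ↔ U.In b) : a = b :=
  le_antisymm (le_iff_gen.2 (h.mono fun _ h => h.1)) (le_iff_gen.2 (h.mono fun _ h => h.2))

theorem gen_iSup {ι : Sort*} (f : ι → X) :
    ∀ᶠ U in gen X, U.In (⨆ i, f i) ↔ ∃ i, U.In (f i) := by
  filter_upwards [resp_mem (Set.range f)] with U hU
  refine ⟨fun h => ?_, fun ⟨i, hi⟩ => U.iSup_intro i hi⟩
  obtain ⟨_, ⟨i, rfl⟩, hi⟩ := hU h
  exact ⟨i, hi⟩

theorem gen_iInf {ι : Sort*} (f : ι → X) :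
    ∀ᶠ U in gen X, U.In (⨅ i, f i) ↔ ∀ i, U.In (f i) := by
  filter_upwards [gen_iSup fun i => (f i)ᶜ] with U hU
  rw [← compl_iInf, U.compl_iff] at hU
  simp only [U.compl_iff, ← not_forall] at hU
  exact not_iff_not.1 hU

theorem In_finset_inf {ι : Type*} (U : Ult X) (F : Finset ι) (f : ι → X) :
    U.In (F.inf f) ↔ ∀ i ∈ F, U.In (f i) := by
  classical
  induction F using Finset.induction_on with
  | empty => simpa using U.top
  | insert a s _ ih => simp [U.inf_iff, ih]

/-- the trace of an ultrafilter along a homomorphism -/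
def com (e : Hm X X') (U : Ult X') : Ult X where
  In a := U.In (e a)
  top := by rw [hm_top]; exact U.top
  not_bot := by rw [hm_bot]; exact U.not_bot
  mono h := U.mono (hm_mono e h)
  inf h h' := by rw [hm_inf]; exact U.inf h h'
  em a := by rw [hm_compl]; exact U.em _

theorem com_In (e : Hm X X') (U : Ult X') (a : X) : (com e U).In a ↔ U.In (e a) := Iff.rfl

theorem ult_ext {U V : Ult X} (h : ∀ a, U.In a ↔ V.In a) : U = V := by
  cases U
  cases V
  congr
  exact funext fun a => propext (h a)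

theorem tendsto_com (e : Hm X X') : Tendsto (com e) (gen X') (gen X) := by
  refine le_countableGenerate_iff_of_countableInterFilter.2 ?_
  rintro _ ⟨T, rfl⟩
  show ∀ᶠ U in gen X', com e U ∈ Resp T
  filter_upwards [resp_mem (e '' T)] with U hU h
  rw [com_In, map_sSup] at h
  obtain ⟨_, ⟨t, ht, rfl⟩, h1⟩ := hU h
  exact ⟨t, ht, h1⟩

/-- a property of generic ultrafilters of `X` that holds along an injective map holds -/
theorem of_com {e : Hm X X'} (he : Function.Injective e) {a b : X}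
    (h : ∀ᶠ U in gen X', (com e U).In a → (com e U).In b) : a ≤ b :=
  (hm_le_iff he).1 (le_iff_gen.2 h)

/-- sets of ultrafilters that have a value -/
instance : MeasurableSpace (Ult X) where
  MeasurableSet' S := ∃ a, ∀ᶠ U in gen X, U ∈ S ↔ U.In a
  measurableSet_empty := ⟨⊥, Eventually.of_forall fun U => iff_of_false id U.not_bot⟩
  measurableSet_compl := by
    rintro S ⟨a, ha⟩
    exact ⟨aᶜ, ha.mono fun U hU => by rw [U.compl_iff, ← hU, Set.mem_compl_iff]⟩
  measurableSet_iUnion f hf := by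
    choose a ha using hf
    refine ⟨⨆ i, a i, ?_⟩
    filter_upwards [eventually_countable_forall.2 ha, gen_iSup a] with U h1 h2
    rw [h2, Set.mem_iUnion]
    exact exists_congr h1

theorem measurableSet_In (a : X) : MeasurableSet {U : Ult X | U.In a} :=
  ⟨a, Eventually.of_forall fun _ => Iff.rfl⟩

theorem measurable_com (e : Hm X X') : Measurable (com e) := by
  rintro S ⟨a, ha⟩
  exact ⟨e a, (tendsto_com e).eventually ha⟩

/-- the value of a set of ultrafilters -/
def bv (S : Set (Ult X)) : X := sSup {a | ∀ᶠ U in gen X, U.In a → U ∈ S}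

theorem In_bv {S : Set (Ult X)} (hS : MeasurableSet S) : ∀ᶠ U in gen X, U.In (bv S) ↔ U ∈ S := by
  obtain ⟨a, ha⟩ := hS
  have : bv S = a := le_antisymm
    (sSup_le fun b hb => le_iff_gen.2 ((ha.and hb).mono fun U h h' => h.1.1 (h.2 h')))
    (le_sSup (ha.mono fun U h => h.2))
  rw [this]
  exact ha.mono fun U h => h.symm

/-- many nonzero elements contain large finite families with nonzero meet -/
theorem exists_inf_ne_bot_card (hX : CCC X) {ι : Type} (a : ι → X) (h : ¬ {i | a i ≠ ⊥}.Countable)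
    (N : ℕ) : ∃ F : Finset ι, F.card = N ∧ F.inf a ≠ ⊥ := by
  classical
  let S := {p : X // {i | p ⊓ a i ≠ ⊥}.Countable}
  obtain ⟨C, hC, hle⟩ := exists_countable_iSup hX fun p : S => p.1
  have := hC.to_subtype
  have h1 : {i | (⨆ p : S, p.1) ⊓ a i ≠ ⊥}.Countable := by
    refine (Set.countable_iUnion fun p : C => p.1.2).mono fun i hi => ?_
    have h2 : a i ⊓ ⨆ p : C, p.1.1 ≠ ⊥ :=
      ne_bot_of_le (le_inf inf_le_right (inf_le_left.trans hle)) hi
    obtain ⟨p, hp⟩ := exists_inf_ne_bot h2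
    exact Set.mem_iUnion.2 ⟨p, by rwa [inf_comm] at hp⟩
  have h2 : (⨆ p : S, p.1)ᶜ ≠ ⊥ := fun h0 => h (by
    rw [compl_eq_bot] at h0
    simpa [h0] using h1)
  suffices H : ∃ F : Finset ι, F.card = N ∧ (⨆ p : S, p.1)ᶜ ⊓ F.inf a ≠ ⊥ from
    H.imp fun F hF => ⟨hF.1, ne_bot_of_le inf_le_right hF.2⟩
  induction N with
  | zero => exact ⟨∅, rfl, by simpa using h2⟩
  | succ N ih =>
    obtain ⟨F, hF, h3⟩ := ih
    have h4 : ¬ {i | (⨆ p : S, p.1)ᶜ ⊓ F.inf a ⊓ a i ≠ ⊥}.Countable := fun hc =>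
      h3 (le_bot_iff.1 ((le_inf (le_iSup (fun p : S => p.1) ⟨_, hc⟩) inf_le_left).trans
        inf_compl_eq_bot.le))
    obtain ⟨i, h5, h6⟩ := Set.not_subset.1 fun hs => h4 (F.countable_toSet.mono hs)
    refine ⟨insert i F, by rw [Finset.card_insert_of_notMem h6, hF], ?_⟩
    rwa [Finset.inf_insert, inf_comm (a i), ← inf_assoc]

end Pool.Agent.Lib.MP_f79ffc_lc.R
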