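import Pool.Agent.Lib.MP_f79ffc_lc.U.Base

/-! Measurable sets modulo a countably complete filter. -/

namespace Pool.Agent.Lib.MP_f79ffc_lc.R

open Pool.Agent.Lib.MP_5d9fac_lc Pool.Agent.Lib.MP_f79ffc_lc.U Filter

/-- a sigma-complete Boolean algebra with the countable chain condition is complete -/
theorem exists_isLUB {B : Type} [BooleanAlgebra B]
    (hσ : ∀ s : Set B, s.Countable → ∃ u, IsLUB s u)
    (hc : ∀ s : Set B, s.Pairwise Disjoint → s.Countable) (s : Set B) : ∃ u, IsLUB s u := by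
  obtain ⟨A, hA⟩ := zorn_subset {A : Set B | A.Pairwise Disjoint ∧ ∀ a ∈ A, ∃ x ∈ s, a ≤ x}
    fun c hc hch => ⟨⋃₀ c, ⟨(Set.pairwise_sUnion hch.directedOn).2 fun a ha => (hc ha).1,
      fun a ⟨t, ht, ha⟩ => (hc ht).2 a ha⟩, fun _ h => Set.subset_sUnion_of_mem h⟩
  obtain ⟨u, hu⟩ := hσ A (hc A hA.prop.1)
  refine ⟨u, fun x hx => ?_, fun b hb => hu.2 fun a ha => ?_⟩
  · have h1 : insert (x \ u) A ⊆ A := hA.le_of_ge
      ⟨hA.prop.1.insert fun a ha _ =>
        have h : Disjoint (x \ u) a := disjoint_sdiff_self_left.mono_right (hu.1 ha)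
        ⟨h, h.symm⟩, by
        rintro a (rfl | ha)
        · exact ⟨x, hx, sdiff_le⟩
        · exact hA.prop.2 a ha⟩ (Set.subset_insert _ _)
    have h2 : x \ u ≤ u := hu.1 (h1 (Set.mem_insert _ _))
    simpa using h2
  · obtain ⟨x, hx, h⟩ := hA.prop.2 a ha
    exact h.trans (hb hx)

/-- the complete Boolean algebra given by least upper bounds -/
@[reducible] noncomputable def cba {B : Type} [BooleanAlgebra B]
    (h : ∀ s : Set B, ∃ u, IsLUB s u) : CompleteBooleanAlgebra B :=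
  { (inferInstance : BooleanAlgebra B) with
    sSup := fun s => (h s).choose
    sInf := fun s => (h (lowerBounds s)).choose
    isLUB_sSup := fun s => (h s).choose_spec
    isGLB_sInf := fun s => isLUB_lowerBounds.1 (h (lowerBounds s)).choose_spec }

variable {Ω Ω' : Type} [MeasurableSpace Ω] [MeasurableSpace Ω']

/-- equality almost everywhere -/
def qs (F : Filter Ω) : Setoid {A : Set Ω // MeasurableSet A} where
  r A B := ∀ᶠ z in F, z ∈ A.1 ↔ z ∈ B.1
  iseqv := ⟨fun _ => Eventually.of_forall fun _ => Iff.rfl, fun h => h.mono fun _ h => h.symm,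
    fun h h' => (h.and h').mono fun _ h => h.1.trans h.2⟩

/-- measurable sets modulo the filter -/
def Q (F : Filter Ω) : Type := Quotient (qs F)

namespace Q

variable {F : Filter Ω} {F' : Filter Ω'}

/-- the class of a set -/
def mk (F : Filter Ω) (A : Set Ω) (h : MeasurableSet A) : Q F := Quotient.mk (qs F) ⟨A, h⟩

/-- a representative -/
noncomputable def rep (a : Q F) : Set Ω := (Quotient.out a).1

theorem meas (a : Q F) : MeasurableSet a.rep := (Quotient.out a).2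

theorem mem_mk (A : Set Ω) (h : MeasurableSet A) : ∀ᶠ z in F, z ∈ (mk F A h).rep ↔ z ∈ A :=
  Quotient.mk_out (s := qs F) ⟨A, h⟩

theorem ext {a b : Q F} (h : ∀ᶠ z in F, z ∈ a.rep ↔ z ∈ b.rep) : a = b :=
  (Quotient.out_equiv_out (s := qs F)).1 h

noncomputable instance : BooleanAlgebra (Q F) where
  le a b := ∀ᶠ z in F, z ∈ a.rep → z ∈ b.rep
  le_refl _ := Eventually.of_forall fun _ => id
  le_trans _ _ _ h h' := (h.and h').mono fun _ h hz => h.2 (h.1 hz)
  le_antisymm _ _ h h' := ext ((h.and h').mono fun _ h => ⟨h.1, h.2⟩)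
  sup a b := mk F (a.rep ∪ b.rep) (a.meas.union b.meas)
  inf a b := mk F (a.rep ∩ b.rep) (a.meas.inter b.meas)
  compl a := mk F a.repᶜ a.meas.compl
  top := mk F Set.univ MeasurableSet.univ
  bot := mk F ∅ MeasurableSet.empty
  le_sup_left a b := (mem_mk _ (a.meas.union b.meas)).mono fun _ h hz => h.2 (Or.inl hz)
  le_sup_right a b := (mem_mk _ (a.meas.union b.meas)).mono fun _ h hz => h.2 (Or.inr hz)
  sup_le a b c h h' := by
    filter_upwards [h, h', mem_mk _ (a.meas.union b.meas)] with z h1 h2 h3 hz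
    exact (h3.1 hz).elim h1 h2
  inf_le_left a b := (mem_mk _ (a.meas.inter b.meas)).mono fun _ h hz => (h.1 hz).1
  inf_le_right a b := (mem_mk _ (a.meas.inter b.meas)).mono fun _ h hz => (h.1 hz).2
  le_inf a b c h h' := by
    filter_upwards [h, h', mem_mk _ (b.meas.inter c.meas)] with z h1 h2 h3 hz
    exact h3.2 ⟨h1 hz, h2 hz⟩
  le_sup_inf a b c := by
    filter_upwards [mem_mk _ (a.meas.union b.meas), mem_mk _ (a.meas.union c.meas),
      mem_mk _ (b.meas.inter c.meas),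
      mem_mk _ ((mk F _ (a.meas.union b.meas)).meas.inter (mk F _ (a.meas.union c.meas)).meas),
      mem_mk _ (a.meas.union (mk F _ (b.meas.inter c.meas)).meas)] with z h1 h2 h3 h4 h5 hz
    refine h5.2 ?_
    have h6 := h4.1 hz
    simp only [Set.mem_inter_iff, Set.mem_union, h1, h2, h3] at h6 ⊢
    tauto
  inf_compl_le_bot a := by
    filter_upwards [mem_mk _ a.meas.compl, mem_mk _ (a.meas.inter (mk F _ a.meas.compl).meas)]
      with z h1 h2 hz
    exact (h1.1 (h2.1 hz).2 (h2.1 hz).1).elim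
  top_le_sup_compl a := by
    filter_upwards [mem_mk _ a.meas.compl, mem_mk _ (a.meas.union (mk F _ a.meas.compl).meas)]
      with z h1 h2 _
    exact h2.2 ((em (z ∈ a.rep)).imp id h1.2)
  le_top _ := (mem_mk _ MeasurableSet.univ).mono fun _ h _ => h.2 trivial
  bot_le _ := (mem_mk _ MeasurableSet.empty).mono fun _ h hz => (h.1 hz).elim

theorem le_def {a b : Q F} : a ≤ b ↔ ∀ᶠ z in F, z ∈ a.rep → z ∈ b.rep := Iff.rfl

theorem mem_inf (a b : Q F) : ∀ᶠ z in F, z ∈ (a ⊓ b).rep ↔ z ∈ a.rep ∧ z ∈ b.rep :=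
  mem_mk _ (a.meas.inter b.meas)

theorem mem_sup (a b : Q F) : ∀ᶠ z in F, z ∈ (a ⊔ b).rep ↔ z ∈ a.rep ∨ z ∈ b.rep :=
  mem_mk _ (a.meas.union b.meas)

theorem mem_compl (a : Q F) : ∀ᶠ z in F, z ∈ (aᶜ).rep ↔ ¬ z ∈ a.rep := mem_mk _ a.meas.compl

theorem mem_top : ∀ᶠ z in F, z ∈ (⊤ : Q F).rep :=
  (mem_mk _ MeasurableSet.univ).mono fun _ h => h.2 trivial

theorem mem_bot : ∀ᶠ z in F, ¬ z ∈ (⊥ : Q F).rep :=
  (mem_mk _ MeasurableSet.empty).mono fun _ h => h.1

theorem eq_bot_iff {a : Q F} : a = ⊥ ↔ ∀ᶠ z in F, ¬ z ∈ a.rep :=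
  ⟨fun h => h ▸ mem_bot, fun h => le_bot_iff.1 (h.mono fun _ h hz => (h hz).elim)⟩

theorem inf_eq_bot_iff {a b : Q F} : a ⊓ b = ⊥ ↔ ∀ᶠ z in F, z ∈ a.rep → ¬ z ∈ b.rep := by
  rw [eq_bot_iff]
  exact eventually_congr ((mem_inf a b).mono fun z h => by rw [h, not_and])

variable [CountableInterFilter F] [CountableInterFilter F']

theorem isLUB_iUnion {ι : Sort*} [Countable ι] (a : ι → Q F) :
    IsLUB (Set.range a) (mk F (⋃ i, (a i).rep) (MeasurableSet.iUnion fun i => (a i).meas)) := by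
  have h0 := mem_mk (F := F) _ (MeasurableSet.iUnion fun i => (a i).meas)
  refine ⟨?_, fun b hb => ?_⟩
  · rintro _ ⟨i, rfl⟩
    exact h0.mono fun z h hz => h.2 (Set.mem_iUnion.2 ⟨i, hz⟩)
  · filter_upwards [h0, eventually_countable_forall.2 fun i => le_def.1 (hb ⟨i, rfl⟩)] with z h1 h2 hz
    obtain ⟨i, hi⟩ := Set.mem_iUnion.1 (h1.1 hz)
    exact h2 i hi

/-- the chain condition for the quotient -/
def Cc (F : Filter Ω) : Prop :=
  ∀ (ι : Type) (f : ι → Q F), (∀ i j, i ≠ j → f i ⊓ f j = ⊥) → {i | f i ≠ ⊥}.Countable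

theorem has_lub (h : Cc F) (s : Set (Q F)) : ∃ u, IsLUB s u := by
  refine exists_isLUB (fun s hs => ?_) (fun s hs => ?_) s
  · have := hs.to_subtype
    exact ⟨_, Subtype.range_coe (s := s) ▸ isLUB_iUnion ((↑) : s → Q F)⟩
  · have h1 := (h s (↑) fun i j hij =>
      disjoint_iff.1 (hs i.2 j.2 (Subtype.coe_injective.ne hij))).image ((↑) : s → Q F)
    refine (h1.insert ⊥).mono fun x hx => ?_
    by_cases h0 : x = ⊥
    · exact Or.inl h0
    · exact Or.inr ⟨⟨x, hx⟩, h0, rfl⟩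

variable [Fact (Cc F)] [Fact (Cc F')]

noncomputable instance : CompleteBooleanAlgebra (Q F) := cba (has_lub Fact.out)

instance : Fact (CCC (Q F)) := ⟨(Fact.out : Cc F)⟩

theorem mem_iSup {ι : Sort*} [Countable ι] (a : ι → Q F) :
    ∀ᶠ z in F, z ∈ (⨆ i, a i).rep ↔ ∃ i, z ∈ (a i).rep := by
  rw [(isLUB_iSup (f := a)).unique (isLUB_iUnion a)]
  exact (mem_mk _ (MeasurableSet.iUnion fun i => (a i).meas)).mono fun z h => by
    rw [h, Set.mem_iUnion]

theorem mem_iInf {ι : Sort*} [Countable ι] (a : ι → Q F) :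
    ∀ᶠ z in F, z ∈ (⨅ i, a i).rep ↔ ∀ i, z ∈ (a i).rep := by
  have h0 : ⨅ i, a i = (⨆ i, (a i)ᶜ)ᶜ := by simp [compl_iSup]
  rw [h0]
  filter_upwards [mem_compl (⨆ i, (a i)ᶜ), mem_iSup fun i => (a i)ᶜ,
    eventually_countable_forall.2 fun i => mem_compl (a i)] with z h1 h2 h3
  simp only [h1, h2, h3, not_exists, not_not]

/-- a homomorphism into the quotient from a ccc algebra -/
noncomputable def hom {X : Type} [CompleteBooleanAlgebra X] [Fact (CCC X)] (f : X → Set Ω)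
    (hm : ∀ x, MeasurableSet (f x))
    (hs : ∀ (ι : Type) [Countable ι] (a : ι → X), ∀ᶠ z in F, z ∈ f (⨆ i, a i) → ∃ i, z ∈ f (a i))
    (hi : ∀ a b, ∀ᶠ z in F, z ∈ f (a ⊓ b) ↔ z ∈ f a ∧ z ∈ f b) (ht : ∀ᶠ z in F, z ∈ f ⊤) :
    Hm X (Q F) :=
  have hmono : ∀ {a b : X}, a ≤ b → mk F _ (hm a) ≤ mk F _ (hm b) := fun {a b} h => by
    filter_upwards [mem_mk _ (hm a), mem_mk _ (hm b), hi a b] with z h1 h2 h3 hz
    rw [inf_eq_left.2 h] at h3
    exact h2.2 (h3.1 (h1.1 hz)).2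
  mkHm (fun x => mk F (f x) (hm x))
    (fun s => by
      refine le_antisymm ?_ (iSup₂_le fun x hx => hmono (le_sSup hx))
      obtain ⟨C, hC, hle⟩ := exists_countable_iSup (Fact.out : CCC X) ((↑) : s → X)
      have := hC.to_subtype
      rw [← sSup_eq_iSup'] at hle
      refine (hmono hle).trans (le_trans (b := ⨆ i : C, mk F _ (hm i.1.1)) ?_
        (iSup_le fun i => le_iSup₂_of_le i.1.1 i.1.2 le_rfl))
      filter_upwards [mem_mk _ (hm (⨆ i : C, i.1.1)), hs C fun i => i.1.1,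
        mem_iSup fun i : C => mk F _ (hm i.1.1),
        eventually_countable_forall.2 fun i : C => mem_mk (F := F) _ (hm i.1.1)] with z h1 h2 h3 h4 hz
      exact h3.2 ((h2 (h1.1 hz)).imp fun i hi => (h4 i).2 hi))
    (fun a b => ext (by
      filter_upwards [mem_mk _ (hm a), mem_mk _ (hm b), mem_mk _ (hm (a ⊓ b)), hi a b,
        mem_inf (mk F _ (hm a)) (mk F _ (hm b))] with z h1 h2 h3 h4 h5
      rw [h3, h4, h5, h1, h2]))
    (top_le_iff.1 (by
      filter_upwards [mem_mk _ (hm ⊤), ht] with z h1 h2 _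
      exact h1.2 h2))

theorem mem_hom {X : Type} [CompleteBooleanAlgebra X] [Fact (CCC X)] (f : X → Set Ω) (hm hs hi ht)
    (x : X) : ∀ᶠ z in F, z ∈ (hom (F := F) f hm hs hi ht x).rep ↔ z ∈ f x := mem_mk _ (hm x)

/-- inverse image along a measurable map that respects the filters -/
noncomputable def pull (f : Ω' → Ω) (hf : Measurable f) (ht : Tendsto f F' F) : Hm (Q F) (Q F') :=
  hom (fun a => f ⁻¹' a.rep) (fun a => hf a.meas)
    (fun _ _ a => (ht.eventually (mem_iSup a)).mono fun _ h => h.1)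
    (fun a b => ht.eventually (mem_inf a b)) (ht.eventually mem_top)

theorem mem_pull (f : Ω' → Ω) (hf : Measurable f) (ht : Tendsto f F' F) (a : Q F) :
    ∀ᶠ z in F', z ∈ (pull f hf ht a).rep ↔ f z ∈ a.rep := mem_mk _ (hf a.meas)

end Q

end Pool.Agent.Lib.MP_f79ffc_lc.R
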