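import Pool.Agent.Lib.MP_f79ffc_lc.R.Lam
import Pool.Agent.Lib.MP_f79ffc_lc.R.Gen
import Pool.Agent.Lib.MP_f79ffc_lc.R.Q

/-! The random extension `RX X` of a ccc complete Boolean algebra and its pointwise semantics. -/

namespace Pool.Agent.Lib.MP_f79ffc_lc.R

open Pool.Agent.Lib.MP_5d9fac_lc Pool.Agent.Lib.MP_f79ffc_lc.U MeasureTheory Filter Cardinal

variable {X X' X'' : Type} [CompleteBooleanAlgebra X] [CompleteBooleanAlgebra X']
  [CompleteBooleanAlgebra X'']

/-- almost all pairs (ultrafilter, point) -/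
noncomputable def gen2 (X : Type) [CompleteBooleanAlgebra X] : Filter (Ult X × Pt) :=
  (gen X).curry (ae lam)

theorem gen2_iff {P : Ult X × Pt → Prop} :
    (∀ᶠ z in gen2 X, P z) ↔ ∀ᶠ U in gen X, ∀ᵐ y ∂lam, P (U, y) := eventually_curry_iff

instance : CountableInterFilter (gen2 X) := ⟨fun S hS h => by
  have h1 : ∀ s ∈ S, ∀ᶠ U in gen X, ∀ᵐ y ∂lam, (U, y) ∈ s := fun s hs => gen2_iff.1 (h s hs)
  refine (gen2_iff (P := fun z => z ∈ ⋂₀ S)).2 ?_
  filter_upwards [(eventually_countable_ball hS).2 h1] with U hU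
  exact (eventually_countable_ball hS).2 hU⟩

theorem gen2_fst {P : Ult X → Prop} (h : ∀ᶠ U in gen X, P U) : ∀ᶠ z in gen2 X, P z.1 :=
  gen2_iff.2 (h.mono fun _ hU => Eventually.of_forall fun _ => hU)

theorem gen2_snd {P : Pt → Prop} (h : ∀ᵐ y ∂lam, P y) : ∀ᶠ z in gen2 X, P z.2 :=
  gen2_iff.2 (Eventually.of_forall fun _ => h)

theorem measurable_mes {A : Set (Ult X × Pt)} (hA : MeasurableSet A) :
    Measurable fun U => lam.real (Prod.mk U ⁻¹' A) :=
  (measurable_measure_prodMk_left hA).ennreal_toReal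

theorem cc_gen2 (hX : CCC X) : Q.Cc (gen2 X) := fun ι f hf => by
  classical
  let a : ℕ → ι → X := fun N i => bv {U | (1 : ℝ) / (N + 1) < lam.real (Prod.mk U ⁻¹' (f i).rep)}
  have ha : ∀ (N : ℕ) i, ∀ᶠ U in gen X,
      U.In (a N i) ↔ (1 : ℝ) / (N + 1) < lam.real (Prod.mk U ⁻¹' (f i).rep) := fun N i =>
    In_bv (measurableSet_lt measurable_const (measurable_mes (f i).meas))
  have h1 : ∀ N, {i | a N i ≠ ⊥}.Countable := fun N => by
    by_contra hc
    obtain ⟨F, hF, h0⟩ := exists_inf_ne_bot_card hX (a N) hc (N + 1)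
    have h2 : ∀ᶠ U in gen X, ∀ i ∈ F, ∀ j ∈ F, i ≠ j →
        ∀ᵐ y ∂lam, (U, y) ∈ (f i).rep → ¬ (U, y) ∈ (f j).rep :=
      (eventually_all_finset F).2 fun i _ => (eventually_all_finset F).2 fun j _ => by
        by_cases h : i = j
        · exact Eventually.of_forall fun _ h' => (h' h).elim
        · exact (gen2_iff.1 (Q.inf_eq_bot_iff.1 (hf i j h))).mono fun _ h' _ => h'
    obtain ⟨U, h3, h4, h5⟩ :=
      exists_gen h0 (h2.and ((eventually_all_finset F).2 fun i _ => ha N i))
    rw [In_finset_inf] at h3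
    have h6 := measureReal_biUnion_finset₀ (μ := lam) (s := F)
      (f := fun i => Prod.mk U ⁻¹' (f i).rep)
      (fun i hi j hj hij => measure_eq_zero_iff_ae_notMem.2
        ((h4 i hi j hj hij).mono fun y hc hy => hc hy.1 hy.2))
      fun i _ => (measurable_prodMk_left (f i).meas).nullMeasurableSet
    have h7 : ∑ _i ∈ F, (1 : ℝ) / (N + 1) < ∑ i ∈ F, lam.real (Prod.mk U ⁻¹' (f i).rep) :=
      Finset.sum_lt_sum_of_nonempty (Finset.card_pos.1 (by omega)) fun i hi => (h5 i hi).1 (h3 i hi)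
    rw [← h6, Finset.sum_const, hF, nsmul_eq_mul, Nat.cast_succ,
      mul_one_div_cancel (by positivity)] at h7
    exact h7.not_ge measureReal_le_one
  refine (Set.countable_iUnion h1).mono fun i hi => ?_
  by_contra hc
  simp only [Set.mem_iUnion, Set.mem_ofPred_eq, not_exists, not_not] at hc
  refine hi (Q.eq_bot_iff.2 (gen2_iff.2 ?_))
  filter_upwards [eventually_countable_forall.2 fun N => ha N i] with U hU
  have h2 : lam.real (Prod.mk U ⁻¹' (f i).rep) = 0 := by
    by_contra h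
    obtain ⟨N, hN⟩ := exists_nat_one_div_lt (lt_of_le_of_ne measureReal_nonneg (Ne.symm h))
    exact U.not_bot (hc N ▸ (hU N).2 hN)
  rw [measureReal_eq_zero_iff] at h2
  exact measure_eq_zero_iff_ae_notMem.1 h2

/-- the random extension -/
def RX (X : Type) [CompleteBooleanAlgebra X] : Type := Q (gen2 X)

/-- membership in a fixed representative -/
def Mem (E : RX X) (z : Ult X × Pt) : Prop := z ∈ Q.rep E

/-- section of the representative -/
def sec (E : RX X) (U : Ult X) : Set Pt := {y | Mem E (U, y)}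

/-- measure of the section -/
noncomputable def mes (E : RX X) (U : Ult X) : ℝ := lam.real (sec E U)

theorem measurableSet_mem (E : RX X) : MeasurableSet {z | Mem E z} := Q.meas E

theorem measurableSet_sec (E : RX X) (U : Ult X) : MeasurableSet (sec E U) :=
  measurable_prodMk_left (Q.meas E)

theorem measurable_mes' (E : RX X) : Measurable (mes E) := measurable_mes (Q.meas E)

/-- the element given by a measurable set -/
noncomputable def rmk (A : Set (Ult X × Pt)) (h : MeasurableSet A) : RX X := Q.mk _ A h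

theorem mem_rmk (A : Set (Ult X × Pt)) (h : MeasurableSet A) :
    ∀ᶠ z in gen2 X, Mem (rmk A h) z ↔ z ∈ A := Q.mem_mk A h

theorem measurableSet_In_res (g : List Bool → X) (n : ℕ) :
    MeasurableSet {z : Ult X × Pt | z.1.In (g (res z.2 n))} := by
  have : {z : Ult X × Pt | z.1.In (g (res z.2 n))} =
      ⋃ s : {s : List Bool // s.length = n}, {U : Ult X | U.In (g s.1)} ×ˢ cylS s.1 := by
    ext z
    refine ⟨fun h => Set.mem_iUnion.2 ⟨⟨res z.2 n, by simp⟩, h, mem_cylS_res _ n⟩, fun h => ?_⟩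
    obtain ⟨⟨s, rfl⟩, h2, h3⟩ := Set.mem_iUnion.1 h
    have h4 : res z.2 s.length = s := h3
    show z.1.In _
    rwa [h4]
  rw [this]
  exact MeasurableSet.iUnion fun s => (measurableSet_In _).prod (measurableSet_cylS _)

theorem measurableSet_Ev (g : List Bool → X) :
    MeasurableSet {z : Ult X × Pt | ∀ᶠ n in atTop, z.1.In (g (res z.2 n))} := by
  simp only [eventually_atTop, Set.ofPred_exists, Set.ofPred_forall]
  exact MeasurableSet.iUnion fun m => MeasurableSet.iInter fun n => MeasurableSet.iInter fun _ =>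
    measurableSet_In_res g n

theorem tendsto_app2 (s : List Bool) :
    Tendsto (fun z : Ult X × Pt => (z.1, app s z.2)) (gen2 X) (gen2 X) := fun _ h =>
  gen2_iff.2 ((gen2_iff.1 h).mono fun _ hU => (tendsto_app s).eventually hU)

theorem tendsto_com2 (e : Hm X X') :
    Tendsto (fun z : Ult X' × Pt => (com e z.1, z.2)) (gen2 X') (gen2 X) := fun _ h =>
  gen2_iff.2 ((tendsto_com e).eventually (gen2_iff.1 h))

variable [Fact (CCC X)] [Fact (CCC X')] [Fact (CCC X'')]

instance : Fact (Q.Cc (gen2 X)) := ⟨cc_gen2 Fact.out⟩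

noncomputable instance : CompleteBooleanAlgebra (RX X) :=
  inferInstanceAs (CompleteBooleanAlgebra (Q (gen2 X)))

instance : Fact (CCC (RX X)) := inferInstanceAs (Fact (CCC (Q (gen2 X))))

/-- the embedding of `X` -/
noncomputable def ri : Hm X (RX X) :=
  Q.hom (F := gen2 X) (fun a => {z | z.1.In a}) (fun a => measurable_fst (measurableSet_In a))
    (fun _ _ a => (gen2_fst (gen_iSup a)).mono fun _ h => h.1)
    (fun _ _ => Eventually.of_forall fun z => z.1.inf_iff) (Eventually.of_forall fun z => z.1.top)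

/-- a ground set -/
noncomputable def rg (S : Set Pt) : RX X :=
  have : Fact (CCC X) := inferInstance
  rmk (Prod.snd ⁻¹' toMeasurable lam S) (measurable_snd (measurableSet_toMeasurable lam S))

/-- a cylinder -/
noncomputable def cyl (s : List Bool) : RX X := rg (cylS s)

/-- the functor -/
noncomputable def rmap (e : Hm X X') : Hm (RX X) (RX X') :=
  Q.pull (fun z => (com e z.1, z.2))
    (((measurable_com e).comp measurable_fst).prodMk measurable_snd) (tendsto_com2 e)

/-- the shift: `y` is in `sh s E` iff `s y` is in `E` -/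
noncomputable def sh (s : List Bool) : Hm (RX X) (RX X) :=
  Q.pull (fun z => (z.1, app s z.2))
    (measurable_fst.prodMk ((measurable_app s).comp measurable_snd)) (tendsto_app2 s)

/-- the inverse of the shift, onto the elements below `cyl s` -/
noncomputable def put (s : List Bool) (E : RX X) : RX X :=
  have : Fact (CCC X) := inferInstance
  rmk {z | z.2 ∈ cylS s ∧ Mem E (z.1, drop s.length z.2)}
    ((measurable_snd (measurableSet_cylS s)).inter
      ((measurable_fst.prodMk ((measurable_drop _).comp measurable_snd)) (measurableSet_mem E)))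

/-- the value of (measure of `E` is at least `1 - ε`) -/
noncomputable def Big (ε : ℝ) (E : RX X) : X :=
  have : Fact (CCC X) := inferInstance
  bv {U | 1 - ε ≤ mes E U}

/-- the value of (measure of `E` is more than `u`) -/
noncomputable def Gt (u : ℝ) (E : RX X) : X :=
  have : Fact (CCC X) := inferInstance
  bv {U | u < mes E U}

/-- the value of (`E` has positive measure) -/
noncomputable def Pos (E : RX X) : X := pj ri E

/-- for all large `n` the value of `g` at the `n`-th cell of the random point holds -/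
noncomputable def Ev (g : List Bool → X) : RX X :=
  have : Fact (CCC X) := inferInstance
  rmk _ (measurableSet_Ev g)

theorem le_iff_mem {E F : RX X} : E ≤ F ↔ ∀ᶠ z in gen2 X, Mem E z → Mem F z := Iff.rfl

theorem mem_top : ∀ᶠ z in gen2 X, Mem (⊤ : RX X) z := Q.mem_top

theorem mem_bot : ∀ᶠ z in gen2 X, ¬ Mem (⊥ : RX X) z := Q.mem_bot

theorem mem_inf (E F : RX X) : ∀ᶠ z in gen2 X, Mem (E ⊓ F) z ↔ Mem E z ∧ Mem F z := Q.mem_inf E F

theorem mem_sup (E F : RX X) : ∀ᶠ z in gen2 X, Mem (E ⊔ F) z ↔ Mem E z ∨ Mem F z := Q.mem_sup E F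

theorem mem_compl (E : RX X) : ∀ᶠ z in gen2 X, Mem Eᶜ z ↔ ¬ Mem E z := Q.mem_compl E

theorem mem_iSup {ι : Sort*} [Countable ι] (E : ι → RX X) :
    ∀ᶠ z in gen2 X, Mem (⨆ i, E i) z ↔ ∃ i, Mem (E i) z := Q.mem_iSup (F := gen2 X) E

theorem mem_iInf {ι : Sort*} [Countable ι] (E : ι → RX X) :
    ∀ᶠ z in gen2 X, Mem (⨅ i, E i) z ↔ ∀ i, Mem (E i) z := Q.mem_iInf (F := gen2 X) E

theorem mem_ri (a : X) : ∀ᶠ z in gen2 X, Mem (ri a) z ↔ z.1.In a :=
  Q.mem_mk _ (measurable_fst (measurableSet_In a))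

theorem mem_rg' (S : Set Pt) :
    ∀ᶠ z in gen2 X, Mem (rg S : RX X) z ↔ z.2 ∈ toMeasurable lam S := mem_rmk _ _

theorem mem_rg {S : Set Pt} (hS : MeasurableSet S) :
    ∀ᶠ z in gen2 X, Mem (rg S : RX X) z ↔ z.2 ∈ S := by
  filter_upwards [mem_rg' S, gen2_snd hS.nullMeasurableSet.toMeasurable_ae_eq] with z h1 h2
  exact h1.trans (iff_of_eq h2)

theorem rg_hull (S : Set Pt) : (rg S : RX X) = rg (toMeasurable lam S) :=
  Q.ext (((mem_rg' S).and (mem_rg (measurableSet_toMeasurable lam S))).mono fun _ h =>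
    h.1.trans h.2.symm)

theorem mem_sh (s : List Bool) (E : RX X) :
    ∀ᶠ z in gen2 X, Mem (sh s E) z ↔ Mem E (z.1, app s z.2) := Q.mem_pull _ _ _ E

theorem mem_put (s : List Bool) (E : RX X) :
    ∀ᶠ z in gen2 X, Mem (put s E) z ↔ z.2 ∈ cylS s ∧ Mem E (z.1, drop s.length z.2) :=
  mem_rmk _ _

theorem mem_rmap (e : Hm X X') (E : RX X) :
    ∀ᶠ z in gen2 X', Mem (rmap e E) z ↔ Mem E (com e z.1, z.2) := Q.mem_pull _ _ _ E

theorem mem_Ev (g : List Bool → X) :
    ∀ᶠ z in gen2 X, Mem (Ev g) z ↔ ∀ᶠ n in atTop, z.1.In (g (res z.2 n)) := mem_rmk _ _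

theorem In_Big (ε : ℝ) (E : RX X) : ∀ᶠ U in gen X, U.In (Big ε E) ↔ 1 - ε ≤ mes E U :=
  In_bv (measurableSet_le measurable_const (measurable_mes' E))

theorem In_Gt (u : ℝ) (E : RX X) : ∀ᶠ U in gen X, U.In (Gt u E) ↔ u < mes E U :=
  In_bv (measurableSet_lt measurable_const (measurable_mes' E))

theorem In_Pos (E : RX X) : ∀ᶠ U in gen X, U.In (Pos E) ↔ 0 < mes E U := by
  have h0 : ∀ U, mes E U ≤ 0 ↔ ∀ᵐ y ∂lam, ¬ Mem E (U, y) := fun U => by
    have h1 : lam.real (sec E U) = 0 ↔ ∀ᵐ y ∂lam, y ∉ sec E U := by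
      rw [measureReal_eq_zero_iff, measure_eq_zero_iff_ae_notMem]
    exact ⟨fun h => h1.1 (le_antisymm h measureReal_nonneg), fun h => (h1.2 h).le⟩
  have : Pos E = Gt 0 E := eq_of_forall_ge_iff fun x => by
    rw [Pos, pj_le, le_iff_mem, le_iff_gen, gen2_iff]
    refine eventually_congr ?_
    filter_upwards [In_Gt 0 E, gen2_iff.1 (mem_ri x)] with U h1 h2
    rw [h1, ← not_le, h0]
    refine ⟨fun h h3 => by_contra fun hx => h3 ?_, fun h => ?_⟩
    · filter_upwards [h, h2] with y h4 h5 h6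
      exact hx (h5.1 (h4 h6))
    · by_cases hx : U.In x
      · exact h2.mono fun y h4 _ => h4.2 hx
      · exact (not_not.1 fun h3 => hx (h h3)).mono fun y h4 h5 => (h4 h5).elim
  rw [this]
  exact In_Gt 0 E

end Pool.Agent.Lib.MP_f79ffc_lc.R
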