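import Pool.Agent.Lib.MP_f79ffc_lc.R.Pt

/-! The fair coin measure on Cantor space: cylinders, shifts, the density theorem. -/

namespace Pool.Agent.Lib.MP_f79ffc_lc.R

open MeasureTheory Filter ENNReal

/-- one fair coin -/
noncomputable def coin : Measure Bool := (2⁻¹ : ℝ≥0∞) • Measure.count

instance : IsProbabilityMeasure coin := ⟨by
  rw [coin, Measure.smul_apply, Measure.count_univ]
  simp [ENNReal.inv_mul_cancel]⟩

theorem coin_singleton (b : Bool) : coin {b} = 2⁻¹ := by simp [coin]

/-- fair coin measure -/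
noncomputable def lam : Measure Pt := Measure.infinitePi fun _ : ℕ => coin

instance : IsProbabilityMeasure lam := by unfold lam; infer_instance

theorem cylS_eq_pi (s : List Bool) :
    cylS s = Set.pi (Finset.range s.length) fun i => {s.getD i false} := by
  ext y
  simp only [mem_cylS, Set.mem_pi, Finset.coe_range, Set.mem_Iio, Set.mem_singleton_iff]
  exact forall₂_congr fun i hi => by simp [hi]

theorem Zs_eq_pi (k n : ℕ) : Zs k n = Set.pi (Finset.Ico k (k + n + 2)) fun _ => {true} := by
  ext y
  simp [Zs]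

theorem measurableSet_cylS (s : List Bool) : MeasurableSet (cylS s) := by
  rw [cylS_eq_pi]
  exact MeasurableSet.pi (Finset.countable_toSet _) fun _ _ => measurableSet_singleton _

theorem measurableSet_Zs (k n : ℕ) : MeasurableSet (Zs k n) := by
  rw [Zs_eq_pi]
  exact MeasurableSet.pi (Finset.countable_toSet _) fun _ _ => measurableSet_singleton _

theorem lam_cylS' (s : List Bool) : lam (cylS s) = 2⁻¹ ^ s.length := by
  rw [cylS_eq_pi, lam, Measure.infinitePi_pi _ fun _ _ => measurableSet_singleton _]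
  simp [coin_singleton]

theorem lam_Zs' (k n : ℕ) : lam (Zs k n) = 2⁻¹ ^ (n + 2) := by
  rw [Zs_eq_pi, lam, Measure.infinitePi_pi _ fun _ _ => measurableSet_singleton _]
  simp [coin_singleton, add_assoc]

theorem lam_cylS (s : List Bool) : lam.real (cylS s) = (1 / 2) ^ s.length := by
  simp [Measure.real, lam_cylS']

theorem lam_Zs (k n : ℕ) : lam.real (Zs k n) = (1 / 2) ^ (n + 2) := by
  simp [Measure.real, lam_Zs']

theorem measurable_app (s : List Bool) : Measurable (app s) := by
  refine measurable_pi_lambda _ fun n => ?_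
  by_cases h : n < s.length
  · simp only [app_lt h]
    exact measurable_const
  · simp only [app_ge (not_lt.1 h)]
    exact measurable_pi_apply _

theorem measurable_drop (n : ℕ) : Measurable (drop n) :=
  measurable_pi_lambda _ fun _ => measurable_pi_apply _

theorem setOf_res (P : List Bool → Prop) (n : ℕ) :
    {y | P (res y n)} = ⋃ s : {s : List Bool // s.length = n ∧ P s}, cylS s.1 := by
  ext y
  refine ⟨fun h => Set.mem_iUnion.2 ⟨⟨res y n, by simp, h⟩, mem_cylS_res y n⟩, fun h => ?_⟩
  obtain ⟨⟨s, rfl, h2⟩, h3⟩ := Set.mem_iUnion.1 h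
  have h4 : res y s.length = s := h3
  show P _
  rwa [h4]

theorem generate_cylS : (inferInstance : MeasurableSpace Pt) =
    MeasurableSpace.generateFrom (Set.range cylS) := by
  refine le_antisymm (iSup_le fun i => ?_) (MeasurableSpace.generateFrom_le ?_)
  · rintro _ ⟨T, -, rfl⟩
    have : (fun y : Pt => y i) ⁻¹' T = {y | (res y (i + 1)).getD i false ∈ T} := by
      ext y
      simp [res]
    rw [this, setOf_res fun s => s.getD i false ∈ T]
    exact MeasurableSet.iUnion fun s => MeasurableSpace.measurableSet_generateFrom ⟨_, rfl⟩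
  · rintro _ ⟨s, rfl⟩
    exact measurableSet_cylS s

theorem isPiSystem_cylS : IsPiSystem (Set.range cylS) := by
  rintro _ ⟨s, rfl⟩ _ ⟨t, rfl⟩ ⟨y, hs, ht⟩
  rcases prefix_or_of_mem hs ht with h | h
  · exact ⟨t, (Set.inter_eq_right.2 (cylS_anti h)).symm⟩
  · exact ⟨s, (Set.inter_eq_left.2 (cylS_anti h)).symm⟩

theorem preimage_app_cylS (s t : List Bool) : app s ⁻¹' cylS (s ++ t) = cylS t :=
  Set.ext fun _ => app_mem_cylS_append

theorem restrict_cylS (s : List Bool) :
    lam.restrict (cylS s) = (2⁻¹ : ℝ≥0∞) ^ s.length • lam.map (app s) := by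
  refine ext_of_generate_finite _ generate_cylS isPiSystem_cylS ?_ ?_
  · rintro _ ⟨t, rfl⟩
    rw [Measure.restrict_apply (measurableSet_cylS t), Measure.smul_apply,
      Measure.map_apply (measurable_app s) (measurableSet_cylS t), smul_eq_mul]
    by_cases h : s <+: t
    · obtain ⟨r, rfl⟩ := h
      rw [preimage_app_cylS, Set.inter_eq_left.2 (cylS_anti (List.prefix_append s r)), lam_cylS',
        lam_cylS', List.length_append, pow_add]
    · by_cases h' : t <+: s
      · rw [Set.inter_eq_right.2 (cylS_anti h'), lam_cylS',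
          Set.eq_univ_of_forall (s := app s ⁻¹' cylS t) fun y => cylS_anti h' (app_mem_cylS s y),
          measure_univ, mul_one]
      · rw [Set.eq_empty_of_forall_notMem (s := cylS t ∩ cylS s) fun y hy =>
            (prefix_or_of_mem hy.2 hy.1).elim h h',
          Set.eq_empty_of_forall_notMem (s := app s ⁻¹' cylS t) fun y hy =>
            (prefix_or_of_mem (app_mem_cylS s y) hy).elim h h']
        simp
  · rw [Measure.restrict_apply MeasurableSet.univ, Measure.smul_apply,
      Measure.map_apply (measurable_app s) MeasurableSet.univ]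
    simp [lam_cylS']

theorem lam_inter_cylS' (s : List Bool) {S : Set Pt} (hS : MeasurableSet S) :
    lam (S ∩ cylS s) = 2⁻¹ ^ s.length * lam (app s ⁻¹' S) := by
  rw [← Measure.restrict_apply hS, restrict_cylS, Measure.smul_apply,
    Measure.map_apply (measurable_app s) hS, smul_eq_mul]

theorem lam_inter_cylS (s : List Bool) {S : Set Pt} (hS : MeasurableSet S) :
    lam.real (S ∩ cylS s) = (1 / 2) ^ s.length * lam.real (app s ⁻¹' S) := by
  simp [Measure.real, lam_inter_cylS' s hS]

theorem tendsto_app (s : List Bool) : Tendsto (app s) (ae lam) (ae lam) := by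
  refine Measure.QuasiMeasurePreserving.tendsto_ae ⟨measurable_app s, ?_⟩
  refine Measure.AbsolutelyContinuous.mk fun S hS h0 => ?_
  rw [Measure.map_apply (measurable_app s) hS]
  have h1 := lam_inter_cylS' s hS
  rw [measure_mono_null Set.inter_subset_left h0] at h1
  exact (mul_eq_zero.1 h1.symm).resolve_left (by simp)

/-- transfer of almost sure statements into a cell -/
theorem ae_drop {P : Pt → Prop} (s : List Bool) (h : ∀ᵐ y ∂lam, P y) :
    ∀ᵐ y ∂lam, y ∈ cylS s → P (drop s.length y) := by
  obtain ⟨T, hT, hm, h0⟩ := exists_measurable_superset_of_null (ae_iff.1 h)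
  have h1 := lam_inter_cylS' s (measurable_drop s.length hm)
  have h2 : app s ⁻¹' (drop s.length ⁻¹' T) = T := by
    ext y
    simp
  rw [h2, h0, mul_zero] at h1
  refine measure_mono_null (fun y hy => ?_) h1
  simp only [Set.mem_compl_iff, Set.mem_ofPred_eq, Classical.not_imp] at hy
  exact ⟨hT hy.2, hy.1⟩

theorem ae_of_app {P : Pt → Prop} (s : List Bool) (h : ∀ᵐ y ∂lam, P (app s y)) :
    ∀ᵐ y ∂lam, y ∈ cylS s → P y :=
  (ae_drop s h).mono fun y hy hs => by simpa [app_drop hs] using hy hs

theorem ae_exists_true : ∀ᵐ y ∂lam, ∃ j, y j = true := by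
  rw [ae_iff]
  refine le_antisymm (ge_of_tendsto' (ENNReal.tendsto_pow_atTop_nhds_zero_of_lt_one
    (r := 2⁻¹) (by simp)) fun n => ?_) (by simp)
  have h := lam_cylS' (List.replicate n false)
  rw [List.length_replicate] at h
  rw [← h]
  refine measure_mono fun y hy => mem_cylS.2 fun i hi => ?_
  simp only [not_exists, Bool.not_eq_true, Set.mem_ofPred_eq] at hy
  simp [hy i]

theorem exists_cylS_subset {O : Set Pt} (hO : IsOpen O) {y : Pt} (hy : y ∈ O) :
    ∀ᶠ n in atTop, cylS (res y n) ⊆ O := by
  obtain ⟨I, u, h1, h2⟩ := isOpen_pi_iff.1 hO y hy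
  filter_upwards [eventually_gt_atTop (I.sup id)] with n hn z hz
  refine h2 fun i hi => ?_
  have h3 : i < n := (Finset.le_sup (f := id) hi).trans_lt hn
  rw [mem_cylS.1 hz i (by simpa using h3), getElem_res]
  exact (h1 i hi).2

/-- the density theorem -/
theorem ae_density {S : Set Pt} (hS : MeasurableSet S) {ε : ℝ} (hε : 0 < ε) :
    ∀ᵐ y ∂lam, y ∈ S → ∀ᶠ n in atTop, 1 - ε ≤ lam.real (app (res y n) ⁻¹' S) := by
  classical
  rw [ae_iff]
  set B := {y | ¬ (y ∈ S → ∀ᶠ n in atTop, 1 - ε ≤ lam.real (app (res y n) ⁻¹' S))}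
  have key : ∀ δ : ℝ≥0∞, δ ≠ 0 → ENNReal.ofReal ε * lam B ≤ δ := fun δ hδ => by
    obtain ⟨O, hSO, hO, -, hlt⟩ := hS.exists_isOpen_sdiff_lt (measure_ne_top lam S) hδ
    let bad : List Bool → Prop := fun s => cylS s ⊆ O ∧ lam.real (app s ⁻¹' S) < 1 - ε
    let C := {s : List Bool // bad s ∧ ∀ t, t <+: s → bad t → t = s}
    have h1 : B ⊆ ⋃ s : C, cylS s.1 := fun y hy => by
      simp only [B, Set.mem_ofPred_eq, Classical.not_imp, not_eventually, not_le] at hy
      have h2 : ∃ n, bad (res y n) :=
        (hy.2.and_eventually (exists_cylS_subset hO (hSO hy.1))).exists.imp fun n hn => ⟨hn.2, hn.1⟩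
      refine Set.mem_iUnion.2 ⟨⟨res y (Nat.find h2), Nat.find_spec h2, fun t ht hb => ?_⟩,
        mem_cylS_res y _⟩
      have h3 : res y t.length = t := cylS_anti ht (mem_cylS_res y _)
      have h4 : Nat.find h2 ≤ t.length := Nat.find_min' h2 (by rwa [h3])
      exact ht.eq_of_length (le_antisymm ht.length_le (by simpa using h4))
    have h2 : ∀ s : C, ENNReal.ofReal ε * lam (cylS s.1) ≤ lam (Sᶜ ∩ cylS s.1) := fun s => by
      rw [lam_inter_cylS' _ hS.compl, lam_cylS', mul_comm]
      gcongr
      rw [ENNReal.ofReal_le_iff_le_toReal (measure_ne_top _ _), Set.preimage_compl]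
      have h3 := s.2.1.2
      have h4 := probReal_compl_eq_one_sub (μ := lam) (measurable_app s.1 hS)
      change ε ≤ lam.real _
      linarith
    have h3 : Pairwise (Function.onFun Disjoint fun s : C => Sᶜ ∩ cylS s.1) := fun s t hst =>
      Set.disjoint_left.2 fun y hs ht => hst (Subtype.ext (by
        rcases prefix_or_of_mem hs.2 ht.2 with h | h
        · exact t.2.2 _ h s.2.1
        · exact (s.2.2 _ h t.2.1).symm))
    calc ENNReal.ofReal ε * lam B ≤ ENNReal.ofReal ε * ∑' s : C, lam (cylS s.1) := by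
          gcongr
          exact (measure_mono h1).trans (measure_iUnion_le _)
      _ ≤ ∑' s : C, lam (Sᶜ ∩ cylS s.1) := by
          rw [← ENNReal.tsum_mul_left]
          exact ENNReal.tsum_le_tsum h2
      _ = lam (⋃ s : C, Sᶜ ∩ cylS s.1) :=
          (measure_iUnion h3 fun s => hS.compl.inter (measurableSet_cylS _)).symm
      _ ≤ lam (O \ S) := measure_mono (Set.iUnion_subset fun s y hy => ⟨s.2.1.1 hy.2, hy.1⟩)
      _ ≤ δ := hlt.le
  have h0 : ENNReal.ofReal ε * lam B = 0 := by
    by_contra hc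
    have h := key (ENNReal.ofReal ε * lam B / 2) (by simp [ENNReal.div_eq_zero_iff, hc])
    exact absurd h (not_le.2 (ENNReal.half_lt_self hc
      (ENNReal.mul_ne_top ENNReal.ofReal_ne_top (measure_ne_top _ _))))
  exact (mul_eq_zero.1 h0).resolve_left (by simpa using hε)

theorem ae_density' {S : Set Pt} (hS : MeasurableSet S) {ε : ℝ} (hε : ε < 1) :
    ∀ᵐ y ∂lam, (∀ᶠ n in atTop, 1 - ε ≤ lam.real (app (res y n) ⁻¹' S)) → y ∈ S := by
  filter_upwards [ae_density hS.compl (ε := (1 - ε) / 2) (by linarith)] with y hy h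
  by_contra hc
  obtain ⟨n, h1, h2⟩ := (h.and (hy hc)).exists
  rw [Set.preimage_compl, probReal_compl_eq_one_sub (measurable_app _ hS)] at h2
  linarith

end Pool.Agent.Lib.MP_f79ffc_lc.R
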