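import Pool.Agent.Lib.MP_f79ffc_lc.R.Api

/-! Arrows between parts of random extensions: matched cells, richness, the sets `d` and `o`. -/

namespace Pool.Agent.Lib.MP_f79ffc_lc.R

open Pool.Agent.Lib.MP_5d9fac_lc Pool.Agent.Lib.MP_f79ffc_lc.U

section Rel
variable {Z Z' : Type} [CompleteBooleanAlgebra Z] [CompleteBooleanAlgebra Z']

/-- cut down to the part below `d` -/
noncomputable def cut (d : Z) : Hm Z (RS.below d).T :=
  RS.lift (fun x => d ⊓ x) (fun _ => inf_le_left) (fun s => by rw [inf_sSup_eq])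
    (fun a b => inf_inf_distrib_left d a b) (inf_top_eq d)

@[simp] theorem cut_val (d x : Z) : (cut d x).1 = d ⊓ x := rfl

/-- a homomorphism between relative subalgebras from a map of the big algebras -/
noncomputable def rel (r : RS Z) (r' : RS Z') (f : Z → Z') (hm : ∀ x ∈ r.car, f x ∈ r'.car)
    (hs : ∀ s : Set Z, f (sSup s) = ⨆ x ∈ s, f x) (hi : ∀ a b, f (a ⊓ b) = f a ⊓ f b)
    (ht : f r.top = r'.top) : Hm r.T r'.T :=
  RS.lift (fun x => f x.1) (fun x => hm _ x.2)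
    (fun s => by
      have h : (sSup s).1 = sSup (Subtype.val '' s) := rfl
      rw [h, hs]
      exact iSup_image)
    (fun a b => hi a.1 b.1) ht

@[simp] theorem rel_val (r : RS Z) (r' : RS Z') (f : Z → Z') (hm hs hi ht) (x : r.T) :
    (rel r r' f hm hs hi ht x).1 = f x.1 := rfl

/-- the range of a homomorphism -/
def rng (f : Hm Z Z') : RS Z' where
  top := ⊤
  car := Set.range f
  le_top _ _ := le_top
  top_mem := ⟨⊤, map_top f⟩
  sSup_mem s hs := ⟨sSup (f ⁻¹' s), by rw [map_sSup, Set.image_preimage_eq_of_subset hs]⟩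
  inf_mem := by
    rintro _ ⟨a, rfl⟩ _ ⟨b, rfl⟩
    exact ⟨a ⊓ b, map_inf f a b⟩
  cpl_mem := by
    rintro _ ⟨a, rfl⟩
    exact ⟨aᶜ, by rw [hm_compl, top_inf_eq]⟩

end Rel

variable {X X' : Type} [CompleteBooleanAlgebra X] [CompleteBooleanAlgebra X']
  [Fact (CCC X)] [Fact (CCC X')]

theorem put_top (s : List Bool) : put s (⊤ : RX X) = cyl s := by
  rw [← map_top (sh s : Hm (RX X) (RX X)), put_sh, top_inf_eq]

theorem put_iSup (s : List Bool) {ι : Sort*} (E : ι → RX X) :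
    put s (⨆ i, E i) = ⨆ i, put s (E i) := by
  simp only [put_eq_pj, pj_iSup]

theorem put_ri_inf (s : List Bool) (a : X) (E : RX X) : put s (ri a ⊓ E) = ri a ⊓ put s E := by
  rw [put_eq_pj, put_eq_pj, ← pj_inf', sh_ri]

theorem sh_cyl_disj {s t : List Bool} (h : ¬ s <+: t) (h' : ¬ t <+: s) :
    sh s (cyl t : RX X) = ⊥ := by
  rw [← top_inf_eq (sh s (cyl t)), ← sh_cyl s, ← map_inf, cyl_disj h h', map_bot]

theorem eq_bot_of_sh_root {H : RX X} (h : ∀ k, sh (root k) H = ⊥) : H = ⊥ := by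
  rw [← inf_top_eq H, ← iSup_cyl_root, inf_iSup_eq, iSup_eq_bot]
  exact fun k => le_bot_iff.1 (le_of_sh (by rw [h k, map_bot]))

theorem ri_inf_ne_bot {p : X} {E : RX X} : ri p ⊓ E ≠ ⊥ ↔ p ⊓ Pos E ≠ ⊥ := by
  rw [inf_comm, inf_map_ne_bot, inf_comm, Pos]

theorem Pos_ne_bot {E : RX X} : Pos E ≠ ⊥ ↔ E ≠ ⊥ := pj_ne_bot

theorem Pos_mono {E F : RX X} (h : E ≤ F) : Pos E ≤ Pos F := pj_mono _ h

theorem Pos_le {E : RX X} {p : X} : Pos E ≤ p ↔ E ≤ ri p := pj_le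

/-- pieces `ri (β l) ⊓ cyl (tc l)` that are pairwise disjoint -/
structure Pcs (X : Type) [CompleteBooleanAlgebra X] (Λ : Type) where
  β : Λ → X
  tc : Λ → List Bool
  disj : ∀ l l', tc l <+: tc l' → β l ⊓ β l' ≠ ⊥ → l = l'

namespace Pcs

variable {Λ : Type} (m : Pcs X Λ)

/-- the union of the pieces -/
noncomputable def o : RX X := ⨆ l, ri (m.β l) ⊓ cyl (m.tc l)

/-- glue: on the piece `l` take `G l`, moved into the cell -/
noncomputable def glue (G : Λ → RX X) : RX X := ⨆ l, ri (m.β l) ⊓ put (m.tc l) (G l)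

theorem glue_le (G : Λ → RX X) : m.glue G ≤ m.o :=
  iSup_mono fun _ => inf_le_inf_left _ (put_le _ _)

theorem glue_top : m.glue (fun _ => ⊤) = m.o := by simp only [glue, o, put_top]

theorem sh_glue (G : Λ → RX X) (l : Λ) :
    ri (m.β l) ⊓ sh (m.tc l) (m.glue G) = ri (m.β l) ⊓ G l := by
  refine le_antisymm ?_ (le_inf inf_le_left ?_)
  · rw [glue, map_iSup, inf_iSup_eq]
    refine iSup_le fun l' => ?_
    rw [map_inf, sh_ri]
    by_cases h : l' = l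
    · rw [h, sh_put]
      exact inf_le_right
    by_cases h0 : m.β l ⊓ m.β l' = ⊥
    · rw [← inf_assoc, ← map_inf, h0, map_bot, bot_inf_eq]
      exact bot_le
    · refine (inf_le_right.trans (inf_le_right.trans (hm_mono _ (put_le _ _)))).trans ?_
      rw [sh_cyl_disj (fun hp => h (m.disj _ _ hp h0).symm)
        fun hp => h (m.disj _ _ hp (by rwa [inf_comm]))]
      exact bot_le
  · refine le_trans ?_ (hm_mono _ (le_iSup (fun l => ri (m.β l) ⊓ put (m.tc l) (G l)) l))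
    rw [map_inf, sh_ri, sh_put]

theorem le_of {E F : RX X} (hE : E ≤ m.o)
    (h : ∀ l, ri (m.β l) ⊓ sh (m.tc l) E ≤ sh (m.tc l) F) : E ≤ F := by
  rw [← inf_eq_left.2 hE, o, inf_iSup_eq]
  refine iSup_le fun l => ?_
  rw [← inf_assoc]
  exact le_of_sh (by rw [map_inf, sh_ri, inf_comm]; exact h l)

theorem ext {E F : RX X} (hE : E ≤ m.o) (hF : F ≤ m.o)
    (h : ∀ l, ri (m.β l) ⊓ sh (m.tc l) E = ri (m.β l) ⊓ sh (m.tc l) F) : E = F :=
  le_antisymm (m.le_of hE fun l => (h l).le.trans inf_le_right)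
    (m.le_of hF fun l => (h l).ge.trans inf_le_right)

theorem glue_congr {G G' : Λ → RX X} (h : ∀ l, ri (m.β l) ⊓ G l = ri (m.β l) ⊓ G' l) :
    m.glue G = m.glue G' := by
  simp only [glue, ← put_ri_inf, h]

theorem glue_sh (E : RX X) : m.glue (fun l => sh (m.tc l) E) = m.o ⊓ E :=
  m.ext (m.glue_le _) inf_le_left fun l => by
    rw [sh_glue, map_inf, ← inf_assoc, ← glue_top, sh_glue, inf_top_eq]

theorem glue_inf (G G' : Λ → RX X) : m.glue (fun l => G l ⊓ G' l) = m.glue G ⊓ m.glue G' :=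
  m.ext (m.glue_le _) (inf_le_left.trans (m.glue_le _)) fun l => by
    rw [sh_glue, map_inf, inf_inf_distrib_left _ (sh _ _), sh_glue, sh_glue, ← inf_inf_distrib_left]

theorem glue_iSup {ι : Sort*} (G : ι → Λ → RX X) :
    m.glue (fun l => ⨆ i, G i l) = ⨆ i, m.glue (G i) := by
  simp only [glue, put_iSup, inf_iSup_eq]
  exact iSup_comm

theorem glue_eq_bot {G : Λ → RX X} : m.glue G = ⊥ ↔ ∀ l, ri (m.β l) ⊓ G l = ⊥ :=
  ⟨fun h l => by rw [← sh_glue, h, map_bot, inf_bot_eq], fun h => by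
    rw [m.glue_congr (G' := fun _ => ⊥) fun l => by rw [h, inf_bot_eq]]
    simp [glue, put_eq_pj, pj_bot]⟩

theorem β_le_Pos (l : Λ) : m.β l ≤ Pos m.o :=
  (Pos_ri_inf_cyl _ (m.tc l)).ge.trans (Pos_mono (le_iSup (fun l => ri (m.β l) ⊓ cyl (m.tc l)) l))

/-- move the cell `c l` to the piece `l` -/
noncomputable def mv (c : Λ → List Bool) (H : RX X) : RX X := m.glue fun l => sh (c l) H

theorem sh_mv (c : Λ → List Bool) (H : RX X) (l : Λ) :
    ri (m.β l) ⊓ sh (m.tc l) (m.mv c H) = ri (m.β l) ⊓ sh (c l) H := m.sh_glue _ l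

theorem mv_le (c : Λ → List Bool) (H : RX X) : m.mv c H ≤ m.o := m.glue_le _

theorem mv_inf (c : Λ → List Bool) (H H' : RX X) : m.mv c (H ⊓ H') = m.mv c H ⊓ m.mv c H' := by
  simp only [mv, map_inf, glue_inf]

theorem mv_iSup (c : Λ → List Bool) {ι : Sort*} (H : ι → RX X) :
    m.mv c (⨆ i, H i) = ⨆ i, m.mv c (H i) := by
  simp only [mv, map_iSup, glue_iSup]

theorem mv_sSup (c : Λ → List Bool) (s : Set (RX X)) : m.mv c (sSup s) = ⨆ x ∈ s, m.mv c x := by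
  simp only [sSup_eq_iSup, mv_iSup]

theorem mv_top (c : Λ → List Bool) : m.mv c ⊤ = m.o := by simp only [mv, map_top, glue_top]

theorem mv_tc (H : RX X) : m.mv m.tc H = m.o ⊓ H := m.glue_sh H

theorem mv_ri (c : Λ → List Bool) (p : X) : m.mv c (ri p) = m.o ⊓ ri p := by
  simp only [← mv_tc, mv, sh_ri]

theorem mv_mono (c : Λ → List Bool) {H H' : RX X} (h : H ≤ H') : m.mv c H ≤ m.mv c H' := by
  rw [← inf_eq_left.2 h, mv_inf]
  exact inf_le_right

/-- the move as a homomorphism -/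
noncomputable def lnk (c : Λ → List Bool) : Hm (RX X) (RS.below m.o).T :=
  RS.lift (m.mv c) (m.mv_le c) (m.mv_sSup c) (m.mv_inf c) (m.mv_top c)

@[simp] theorem lnk_val (c : Λ → List Bool) (H : RX X) : (m.lnk c H).1 = m.mv c H := rfl

/-- if every root is matched, nothing is lost -/
theorem mv_eq_bot {c : Λ → List Bool} (hc : ∀ k, ⨆ l : {l // c l = root k}, m.β l.1 = ⊤)
    {H : RX X} (h : m.mv c H = ⊥) : H = ⊥ :=
  eq_bot_of_sh_root fun k => by
    rw [← top_inf_eq (sh (root k) H), ← map_top (ri : Hm X (RX X)), ← hc k, map_iSup, iSup_inf_eq, iSup_eq_bot]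
    exact fun l => by rw [← m.glue_eq_bot.1 h l.1, l.2]

theorem mv_le_iff {c : Λ → List Bool} (hc : ∀ k, ⨆ l : {l // c l = root k}, m.β l.1 = ⊤)
    {H H' : RX X} : m.mv c H ≤ m.mv c H' ↔ H ≤ H' :=
  hm_le_iff (f := m.lnk c) (hm_inj_iff.2 fun _ h => m.mv_eq_bot hc (congrArg Subtype.val h))

/-- the correct square of a link -/
theorem mv_corr {c : Λ → List Bool} (hc : ∀ k, ⨆ l : {l // c l = root k}, m.β l.1 = ⊤)
    (e : Hm X' X) {y : X} {H : RX X'} :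
    m.o ⊓ ri y ≤ m.mv c (rmap e H) ↔ ri (pj e y) ≤ H := by
  rw [← m.mv_ri c, m.mv_le_iff hc, ← pj_le, pj_rmap_ri]

end Pcs

/-- every part of `d` that is possible with `p` meets `d'` below `p` -/
def Rich (e : Hm X X') (d : RX X) (d' : RX X') : Prop :=
  ∀ (E : RX X) (p : X'), E ≠ ⊥ → E ≤ d → E ≤ ri (pj e p) → ri p ⊓ d' ⊓ rmap e E ≠ ⊥

theorem Rich.inj {e : Hm X X'} (he : Function.Injective e) {d : RX X} {d' : RX X'}
    (h : Rich e d d') {E : RX X} (hE : E ≤ d) (h0 : d' ⊓ rmap e E = ⊥) : E = ⊥ := by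
  by_contra hc
  exact h E ⊤ hc hE (by rw [pj_top he, map_top]; exact le_top) (by rwa [map_top, top_inf_eq])

/-- the correct square of a plain arrow -/
theorem Rich.corr {e : Hm X X'} {d : RX X} {d' : RX X'} (h : Rich e d d') {y : X'} {H : RX X}
    (hH : d' ⊓ ri y ≤ rmap e H) : d ⊓ ri (pj e y) ≤ H := by
  by_contra hc
  refine h (d ⊓ ri (pj e y) ⊓ Hᶜ) y (fun h0 => hc (by rwa [← sdiff_eq, sdiff_eq_bot_iff] at h0))
    (inf_le_left.trans inf_le_left) (inf_le_left.trans inf_le_right) (le_bot_iff.1 ?_)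
  rw [map_inf, hm_compl, inf_comm (ri y)]
  exact (inf_le_inf hH inf_le_right).trans inf_compl_eq_bot.le

theorem corr_le (e : Hm X X') (y : X') : ri y ≤ rmap e (ri (pj e y)) := by
  rw [rmap_ri]
  exact hm_mono _ (le_map_pj e y)

theorem rich_rmap (e : Hm X X') (d : RX X) : Rich e d (rmap e d) := fun E p h0 h1 h2 => by
  rw [inf_assoc, ← map_inf, inf_eq_right.2 h1, inf_map_ne_bot, pj_rmap_ri, inf_eq_right.2 h2]
  exact h0

theorem rich_top (e : Hm X X') (d : RX X) : Rich e d ⊤ := fun E p h0 _ h2 => by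
  rw [inf_top_eq, inf_map_ne_bot, pj_rmap_ri, inf_eq_right.2 h2]
  exact h0

/-- the open set given by the values `θ n k` of (`T n = k`) -/
noncomputable def oZ (θ : ℕ → ℕ → X) : RX X := ⨆ n, ⨆ k, ri (θ n k) ⊓ rg (Zs k n)

theorem rmap_oZ (e : Hm X X') (θ : ℕ → ℕ → X) : rmap e (oZ θ) = oZ fun n k => e (θ n k) := by
  simp only [oZ, map_iSup, map_inf, rmap_ri, rmap_rg]

/-- richness from an unbounded sequence -/
theorem rich_oZ {e : Hm X X'} {θ t : ℕ → ℕ → X'}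
    (ht : ∀ n k, t n k ≤ ⨆ k', ⨆ _ : k ≤ k', θ n k')
    (hu : ∀ p, p ≠ ⊥ → ∃ n, (⨅ k, pj e (p ⊓ t n k)) ≠ ⊥) (d : RX X) : Rich e d (oZ θ) := by
  intro E p h0 _ h2
  have h3 : p ⊓ e (Pos E) ≠ ⊥ := by
    rw [inf_map_ne_bot, inf_eq_right.2 (Pos_le.2 h2)]
    exact Pos_ne_bot.2 h0
  obtain ⟨n, hn⟩ := hu _ h3
  have h4 : (⨅ k, pj e (p ⊓ e (Pos E) ⊓ t n k)) ≤ Pos E :=
    (iInf_le _ 0).trans (pj_le.2 (inf_le_left.trans inf_le_right))
  obtain ⟨k, hk⟩ := exists_inf_ne_bot_of_le hn (h4.trans (Pos_le_Zs E n))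
  have h5 := inf_map_ne_bot.2 (ne_bot_of_le (inf_le_inf_right _
    (iInf_le (fun k => pj e (p ⊓ e (Pos E) ⊓ t n k)) k)) hk)
  have h6 : p ⊓ e (⨅ k', ⨅ _ : k ≤ k', Pos (E ⊓ rg (Zs k' n))) ⊓ ⨆ k', ⨆ _ : k ≤ k', θ n k' ≠ ⊥ :=
    ne_bot_of_le (le_inf (inf_le_inf_right _ (inf_le_left.trans inf_le_left))
      (inf_le_left.trans (inf_le_right.trans (ht n k)))) h5
  obtain ⟨k', h7⟩ := exists_inf_ne_bot h6
  obtain ⟨hk', h8⟩ := exists_inf_ne_bot h7
  have h9 : p ⊓ θ n k' ⊓ Pos (rmap e (E ⊓ rg (Zs k' n))) ≠ ⊥ := by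
    rw [Pos_rmap]
    exact ne_bot_of_le (le_inf (inf_le_inf_right _ inf_le_left)
      (inf_le_left.trans (inf_le_right.trans (hm_mono e (iInf₂_le k' hk'))))) h8
  rw [← ri_inf_ne_bot, map_inf, map_inf, rmap_rg] at h9
  exact ne_bot_of_le (le_inf (le_inf (inf_le_left.trans inf_le_left) (le_iSup₂_of_le n k'
    (inf_le_inf inf_le_right inf_le_right))) (inf_le_right.trans inf_le_left)) h9

/-- if all values are beyond the cell `s`, half of the cell is outside the open set -/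
theorem le_Big_oZ {θ : ℕ → ℕ → X} (hd : ∀ n k k', k ≠ k' → θ n k ⊓ θ n k' = ⊥) (s : List Bool)
    {τ : X} (hτ : ∀ n k, k < s.length → τ ⊓ θ n k = ⊥) : τ ≤ Big (1 / 2) (sh s (oZ θ)ᶜ) := by
  have h := sub (p := τ) (ε := 1 / 2) (by norm_num) θ (fun n _ => (1 / 2) ^ (n + 2))
    (fun n k => sh s (rg (Zs k n))) (fun n k k' h => by rw [inf_assoc, hd n k k' h, inf_bot_eq])
    (fun n k => by
      by_cases hk : k < s.length
      · rw [hτ n k hk]
        exact bot_le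
      · rw [sh_Zs (not_lt.1 hk), Big_compl_Zs]
        exact le_top)
    fun F f _ => by
      have h1 : HasSum (fun n : ℕ => (1 / 2 : ℝ) ^ (n + 2)) (1 / 2) := by
        have h2 := hasSum_geometric_two.mul_right ((1 / 2 : ℝ) ^ 2)
        simp only [← pow_add] at h2
        rwa [show (2 : ℝ) * (1 / 2) ^ 2 = 1 / 2 by norm_num] at h2
      exact sum_le_hasSum F (fun n _ => by positivity) h1
  simpa only [oZ, hm_compl, map_iSup, map_inf, sh_ri] using h

theorem Pos_compl_oZ {θ : ℕ → ℕ → X} (hd : ∀ n k k', k ≠ k' → θ n k ⊓ θ n k' = ⊥) :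
    Pos (oZ θ)ᶜ = ⊤ := by
  have h := le_Big_oZ hd [] (τ := ⊤) fun _ _ h => absurd h (Nat.not_lt_zero _)
  rw [sh_nil] at h
  exact top_le_iff.1 (h.trans (Big_le_Pos (by norm_num) _))

/-- the arrow to the part outside the open set is injective -/
theorem compl_oZ_inf_ne_bot {e : Hm X X'} {θ : ℕ → ℕ → X'}
    (hd : ∀ n k k', k ≠ k' → θ n k ⊓ θ n k' = ⊥) {τ : ℕ → X'}
    (hτ : ∀ m n k, k < m → τ m ⊓ θ n k = ⊥) (hp : ∀ m, pj e (τ m) = ⊤) {E : RX X} (hE : E ≠ ⊥) :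
    (oZ θ)ᶜ ⊓ rmap e E ≠ ⊥ := by
  obtain ⟨s, -, -, hs⟩ := exists_of_Ev_ne_bot
    (ne_bot_of_le (le_Ev_Big (ε := 1 / 4) (by norm_num) E) hE) 0
  have h1 : τ s.length ⊓ e (Big (1 / 4) (sh s E)) ≠ ⊥ := by
    rwa [inf_map_ne_bot, hp, top_inf_eq]
  rw [← Big_rmap, rmap_sh] at h1
  have h2 := ne_bot_of_le ((inf_le_inf_right _ (le_Big_oZ hd s (hτ _))).trans
    ((Big_inf _ _ _ _).trans (Big_le_Pos (by norm_num) _))) h1
  rw [← map_inf, Pos_ne_bot] at h2
  exact fun h0 => h2 (by rw [h0, map_bot])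

theorem inf_ri_eq_bot {d : RX X} (hd : Pos d = ⊤) {x : X} (h : d ⊓ ri x = ⊥) : x = ⊥ := by
  rwa [inf_map_eq_bot, ← Pos, hd, top_inf_eq] at h

theorem inf_ri_le_iff {d : RX X} (hd : Pos d = ⊤) {x y : X} : d ⊓ ri x ≤ ri y ↔ x ≤ y := by
  rw [← pj_le, pj_inf, ← Pos, hd, top_inf_eq]

end Pool.Agent.Lib.MP_f79ffc_lc.R
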