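import Pool.Agent.Lib.MP_f79ffc_lc.R.Core

/-! The measure of sections, and transfer of almost-everywhere statements. -/

set_option linter.unusedSectionVars false

namespace Pool.Agent.Lib.MP_f79ffc_lc.R

open Pool.Agent.Lib.MP_5d9fac_lc Pool.Agent.Lib.MP_f79ffc_lc.U MeasureTheory Filter Cardinal

theorem ms_measurable_drop (n : ℕ) : Measurable (drop n) :=
  measurable_pi_lambda _ fun m => measurable_pi_apply (n + m)

theorem ms_null_iff {S : Set Pt} : lam.real S = 0 ↔ lam S = 0 :=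
  measureReal_eq_zero_iff (measure_ne_top _ _)

/-- null sets pull back along `app s` -/
theorem ms_ae_app (s : List Bool) {P : Pt → Prop} (h : ∀ᵐ y ∂lam, P y) :
    ∀ᵐ y ∂lam, P (app s y) := by
  obtain ⟨S, h1, hS, h2⟩ := exists_measurable_superset_of_null (ae_iff.1 h)
  have h3 := lam_inter_cylS s hS
  rw [ms_null_iff.2 (measure_mono_null Set.inter_subset_left h2)] at h3
  have h4 := (mul_eq_zero.1 h3.symm).resolve_left (by positivity)
  exact ae_iff.2 (measure_mono_null (Set.preimage_mono (f := app s) h1) (ms_null_iff.1 h4))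

/-- null sets pull back along `drop` on a cylinder -/
theorem ms_ae_drop (s : List Bool) {P : Pt → Prop} (h : ∀ᵐ y ∂lam, P y) :
    ∀ᵐ y ∂lam, y ∈ cylS s → P (drop s.length y) := by
  obtain ⟨S, h1, hS, h2⟩ := exists_measurable_superset_of_null (ae_iff.1 h)
  have h3 := lam_inter_cylS s (ms_measurable_drop s.length hS)
  have h4 : app s ⁻¹' (drop s.length ⁻¹' S) = S := by
    ext y
    simp
  rw [h4, ms_null_iff.2 h2, mul_zero] at h3
  refine ae_iff.2 (measure_mono_null (fun y hy => ?_) (ms_null_iff.1 h3))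
  simp only [Set.mem_ofPred_eq, Classical.not_imp] at hy
  exact ⟨h1 hy.2, hy.1⟩

section
variable {X X' X'' : Type} [CompleteBooleanAlgebra X] [CompleteBooleanAlgebra X']
  [CompleteBooleanAlgebra X'']

theorem ms_ult_ext {U V : Ult X} (h : ∀ a, U.In a ↔ V.In a) : U = V := by
  cases U
  cases V
  congr
  funext a
  exact propext (h a)

theorem ms_eq_gen {a b : X} (h : ∀ᶠ U in gen X, U.In a ↔ U.In b) : a = b :=
  le_antisymm (le_iff_gen.2 (h.mono fun _ h => h.1)) (le_iff_gen.2 (h.mono fun _ h => h.2))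

theorem ms_gen2_com (e : Hm X X') {P : Ult X × Pt → Prop} (h : ∀ᶠ z in gen2 X, P z) :
    ∀ᶠ z in gen2 X', P (com e z.1, z.2) :=
  gen2_iff.2 ((tendsto_com e).eventually (gen2_iff.1 h))

theorem ms_gen2_app (s : List Bool) {P : Ult X × Pt → Prop} (h : ∀ᶠ z in gen2 X, P z) :
    ∀ᶠ z in gen2 X, P (z.1, app s z.2) :=
  gen2_iff.2 ((gen2_iff.1 h).mono fun U hU => ms_ae_app s (P := fun y => P (U, y)) hU)

theorem ms_gen2_drop (s : List Bool) {P : Ult X × Pt → Prop} (h : ∀ᶠ z in gen2 X, P z) :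
    ∀ᶠ z in gen2 X, z.2 ∈ cylS s → P (z.1, drop s.length z.2) :=
  gen2_iff.2 ((gen2_iff.1 h).mono fun U hU => ms_ae_drop s (P := fun y => P (U, y)) hU)

theorem ms_gen_of_gen2 {P : Ult X → Prop} (h : ∀ᶠ z in gen2 X, P z.1) : ∀ᶠ U in gen X, P U :=
  (gen2_iff.1 h).mono fun _ hU => hU.exists.elim fun _ h => h

variable [Fact (CCC X)] [Fact (CCC X')] [Fact (CCC X'')]

theorem ms_ext {E F : RX X} (h : ∀ᶠ z in gen2 X, Mem E z ↔ Mem F z) : E = F :=
  le_antisymm (le_iff_mem.2 (h.mono fun _ h => h.1)) (le_iff_mem.2 (h.mono fun _ h => h.2))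

/-- the measure of a section from a description of the membership -/
theorem ms_mes_eq {E : RX X} {S : Ult X → Set Pt}
    (h : ∀ᶠ z in gen2 X, Mem E z ↔ z.2 ∈ S z.1) : ∀ᶠ U in gen X, mes E U = lam.real (S U) :=
  (gen2_iff.1 h).mono fun _ hU => measureReal_congr (eventuallyEq_set.2 hU)

theorem mes_nonneg (E : RX X) (U : Ult X) : 0 ≤ mes E U := measureReal_nonneg

theorem mes_le_one (E : RX X) (U : Ult X) : mes E U ≤ 1 := measureReal_le_one

theorem mes_mono {p : X} {E F : RX X} (h : ri p ⊓ E ≤ F) :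
    ∀ᶠ U in gen X, U.In p → mes E U ≤ mes F U := by
  have h1 : ∀ᶠ z in gen2 X, z.1.In p → Mem E z → Mem F z := by
    filter_upwards [le_iff_mem.1 h, mem_inf (ri p) E, mem_ri p] with z h1 h2 h3 hp hE
    exact h1 (h2.2 ⟨h3.2 hp, hE⟩)
  filter_upwards [gen2_iff.1 h1] with U hU hp
  exact ENNReal.toReal_mono (measure_ne_top _ _) (measure_mono_ae (hU.mono fun _ hy => hy hp))

theorem mes_compl (E : RX X) : ∀ᶠ U in gen X, mes Eᶜ U = 1 - mes E U := by
  filter_upwards [ms_mes_eq (S := fun U => (sec E U)ᶜ) (mem_compl E)] with U hU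
  rw [hU, measureReal_compl (measurableSet_sec E U), probReal_univ]
  rfl

theorem mes_sup_inf (E F : RX X) :
    ∀ᶠ U in gen X, mes (E ⊔ F) U + mes (E ⊓ F) U = mes E U + mes F U := by
  filter_upwards [ms_mes_eq (S := fun U => sec E U ∪ sec F U) (mem_sup E F),
    ms_mes_eq (S := fun U => sec E U ∩ sec F U) (mem_inf E F)] with U h1 h2
  rw [h1, h2]
  exact measureReal_union_add_inter (measurableSet_sec F U)

theorem mes_rg {S : Set Pt} (hS : MeasurableSet S) :
    ∀ᶠ U in gen X, mes (rg S : RX X) U = lam.real S :=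
  ms_mes_eq (S := fun _ => S) (mem_rg hS)

theorem mes_inf_cyl (s : List Bool) (E : RX X) :
    ∀ᶠ U in gen X, mes (E ⊓ cyl s) U = (1 / 2) ^ s.length * mes (sh s E) U := by
  have h1 : ∀ᶠ z in gen2 X, Mem (E ⊓ cyl s) z ↔ z.2 ∈ sec E z.1 ∩ cylS s := by
    filter_upwards [mem_inf E (cyl s), mem_rg (X := X) (measurableSet_cylS s)] with z h1 h2
    rw [h1]
    exact and_congr Iff.rfl h2
  filter_upwards [ms_mes_eq (S := fun U => sec E U ∩ cylS s) h1,
    ms_mes_eq (S := fun U => app s ⁻¹' sec E U) (mem_sh s E)] with U h2 h3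
  rw [h2, h3]
  exact lam_inter_cylS s (measurableSet_sec E U)

theorem mes_rmap (e : Hm X X') (E : RX X) :
    ∀ᶠ U in gen X', mes (rmap e E) U = mes E (com e U) :=
  ms_mes_eq (S := fun U => sec E (com e U)) (mem_rmap e E)

theorem mes_iSup {E : ℕ → RX X} (hE : Monotone E) :
    ∀ᶠ U in gen X, Tendsto (fun k => mes (E k) U) atTop (nhds (mes (⨆ k, E k) U)) := by
  have h1 : ∀ k, ∀ᶠ z in gen2 X, Mem (E k) z ↔ z.2 ∈ Set.accumulate (fun j => sec (E j) z.1) k := by
    intro k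
    have h2 : ∀ᶠ z in gen2 X, ∀ j : Set.Iic k, Mem (E j.1) z → Mem (E k) z :=
      eventually_countable_forall.2 fun j => le_iff_mem.1 (hE j.2)
    filter_upwards [h2] with z hz
    rw [Set.mem_accumulate]
    exact ⟨fun h => ⟨k, le_rfl, h⟩, fun ⟨j, hj, h⟩ => hz ⟨j, hj⟩ h⟩
  have h3 : ∀ᶠ z in gen2 X, Mem (⨆ k, E k) z ↔ z.2 ∈ ⋃ j, sec (E j) z.1 := by
    filter_upwards [mem_iSup E] with z hz
    rw [hz, Set.mem_iUnion]
    rfl
  filter_upwards [eventually_countable_forall.2 fun k =>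
      ms_mes_eq (S := fun U => Set.accumulate (fun j => sec (E j) U) k) (h1 k),
    ms_mes_eq (S := fun U => ⋃ j, sec (E j) U) h3] with U h4 h5
  rw [h5, funext h4]
  exact (ENNReal.tendsto_toReal (measure_ne_top _ _)).comp tendsto_measure_iUnion_accumulate

theorem mes_iInf {E : ℕ → RX X} (hE : Antitone E) :
    ∀ᶠ U in gen X, Tendsto (fun k => mes (E k) U) atTop (nhds (mes (⨅ k, E k) U)) := by
  have h1 : Monotone fun k => (E k)ᶜ := fun _ _ h => compl_le_compl (hE h)
  filter_upwards [mes_iSup h1, eventually_countable_forall.2 fun k => mes_compl (E k),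
    mes_compl (⨅ k, E k)] with U h2 h3 h4
  rw [← compl_iInf, h4, funext h3] at h2
  simpa using h2.const_sub 1

end

end Pool.Agent.Lib.MP_f79ffc_lc.R
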