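import Mathlib

/-! Points of Cantor space, cells (finite words), roots and the sets `Zs k n`. -/

namespace Pool.Agent.Lib.MP_f79ffc_lc.R

/-- points of Cantor space -/
abbrev Pt : Type := ℕ → Bool

/-- the point `s y` -/
def app (s : List Bool) (y : Pt) : Pt := fun n => s.getD n (y (n - s.length))

/-- the first `n` letters -/
def res (y : Pt) (n : ℕ) : List Bool := (List.range n).map y

/-- forget the first `n` letters -/
def drop (n : ℕ) (y : Pt) : Pt := fun m => y (n + m)

/-- the cylinder of a cell -/
def cylS (s : List Bool) : Set Pt := {y | res y s.length = s}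

/-- the cell `0^k 1` -/
def root (k : ℕ) : List Bool := List.replicate k false ++ [true]

/-- the points equal to `1` on the interval from `k` of length `n + 2` -/
def Zs (k n : ℕ) : Set Pt := {y | ∀ j, k ≤ j → j < k + n + 2 → y j = true}

theorem app_lt {s : List Bool} {n : ℕ} (h : n < s.length) (y : Pt) : app s y n = s[n] := by
  simp [app, h]

theorem app_ge {s : List Bool} {n : ℕ} (h : s.length ≤ n) (y : Pt) :
    app s y n = y (n - s.length) := by
  simp [app, List.getElem?_eq_none h]

@[simp] theorem app_add (s : List Bool) (y : Pt) (m : ℕ) : app s y (s.length + m) = y m := by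
  rw [app_ge (Nat.le_add_right _ _), Nat.add_sub_cancel_left]

@[simp] theorem app_nil (y : Pt) : app [] y = y := by
  funext n; simp [app]

@[simp] theorem length_res (y : Pt) (n : ℕ) : (res y n).length = n := by simp [res]

@[simp] theorem getElem_res (y : Pt) {n i : ℕ} (h : i < (res y n).length) : (res y n)[i] = y i := by
  simp [res]

@[simp] theorem res_zero (y : Pt) : res y 0 = [] := rfl

theorem res_succ (y : Pt) (n : ℕ) : res y (n + 1) = res y n ++ [y n] := by
  simp [res, List.range_succ]

theorem app_append (s t : List Bool) (y : Pt) : app (s ++ t) y = app s (app t y) := by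
  funext n
  by_cases h : n < s.length
  · rw [app_lt h, app_lt (by simp; omega), List.getElem_append_left h]
  · have h' := not_lt.1 h
    rw [app_ge h']
    by_cases h2 : n - s.length < t.length
    · rw [app_lt h2, app_lt (by simp; omega), List.getElem_append_right h']
    · rw [app_ge (not_lt.1 h2), app_ge (by simp; omega), List.length_append, Nat.sub_sub]

theorem mem_cylS {s : List Bool} {y : Pt} :
    y ∈ cylS s ↔ ∀ i (h : i < s.length), y i = s[i] := by
  refine ⟨fun h i hi => ?_, fun h => List.ext_getElem (by simp) fun i h1 h2 => ?_⟩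
  · have h1 : res y s.length = s := h
    have h2 := List.getElem_of_eq h1 (i := i) (by simpa using hi)
    rwa [getElem_res] at h2
  · rw [getElem_res, h i h2]

theorem mem_cylS_res (y : Pt) (n : ℕ) : y ∈ cylS (res y n) := by
  simp [cylS]

theorem app_mem_cylS (s : List Bool) (y : Pt) : app s y ∈ cylS s :=
  mem_cylS.2 fun _ h => app_lt h y

@[simp] theorem drop_app (s : List Bool) (y : Pt) : drop s.length (app s y) = y := by
  funext m; simp [drop]

theorem app_drop {s : List Bool} {y : Pt} (h : y ∈ cylS s) : app s (drop s.length y) = y := by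
  funext n
  by_cases hn : n < s.length
  · rw [app_lt hn, mem_cylS.1 h n hn]
  · rw [app_ge (not_lt.1 hn), drop]
    congr 1
    omega

theorem app_res_drop (y : Pt) (n : ℕ) : app (res y n) (drop n y) = y := by
  simpa using app_drop (mem_cylS_res y n)

theorem app_injective (s : List Bool) : Function.Injective (app s) := fun y y' h => by
  rw [← drop_app s y, h, drop_app]

theorem range_app (s : List Bool) : Set.range (app s) = cylS s :=
  Set.ext fun _ => ⟨fun ⟨z, hz⟩ => hz ▸ app_mem_cylS s z, fun h => ⟨_, app_drop h⟩⟩

theorem res_app (s : List Bool) (y : Pt) (n : ℕ) :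
    res (app s y) (s.length + n) = s ++ res y n := by
  induction n with
  | zero => simpa [cylS] using app_mem_cylS s y
  | succ n ih => rw [← add_assoc, res_succ, ih, res_succ, app_add, List.append_assoc]

theorem res_prefix (y : Pt) {m n : ℕ} (h : m ≤ n) : res y m <+: res y n := by
  induction h with
  | refl => exact List.prefix_rfl
  | step _ ih => rw [res_succ]; exact ih.trans (List.prefix_append _ _)

theorem mem_cylS_iff_prefix {s : List Bool} {y : Pt} {n : ℕ} (h : s.length ≤ n) :
    y ∈ cylS s ↔ s <+: res y n := by
  refine ⟨fun hy => ?_, fun hp => mem_cylS.2 fun i hi => ?_⟩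
  · have h1 : res y s.length = s := hy
    rw [← h1]
    simpa using res_prefix y h
  · rw [hp.getElem hi, getElem_res]

theorem cylS_anti {s t : List Bool} (h : s <+: t) : cylS t ⊆ cylS s := fun y hy => by
  have h1 : res y t.length = t := hy
  rw [mem_cylS_iff_prefix h.length_le, h1]
  exact h

theorem app_mem_cylS_append {s t : List Bool} {y : Pt} : app s y ∈ cylS (s ++ t) ↔ y ∈ cylS t := by
  show res _ _ = _ ↔ res _ _ = _
  rw [List.length_append, res_app, List.append_cancel_left_eq]

theorem prefix_or_of_mem {s t : List Bool} {y : Pt} (hs : y ∈ cylS s) (ht : y ∈ cylS t) :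
    s <+: t ∨ t <+: s :=
  List.prefix_or_prefix_of_prefix ((mem_cylS_iff_prefix (le_max_left _ t.length)).1 hs)
    ((mem_cylS_iff_prefix (le_max_right s.length _)).1 ht)

theorem eq_of_mem_cylS {s t : List Bool} {y : Pt} (hs : y ∈ cylS s) (ht : y ∈ cylS t)
    (h : s.length = t.length) : s = t := by
  have h1 : res y s.length = s := hs
  have h2 : res y t.length = t := ht
  rw [← h1, h, h2]

@[simp] theorem cylS_nil : cylS [] = Set.univ := Set.eq_univ_of_forall fun _ => rfl

@[simp] theorem length_root (k : ℕ) : (root k).length = k + 1 := by simp [root]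

theorem mem_cylS_root {k : ℕ} {y : Pt} :
    y ∈ cylS (root k) ↔ y k = true ∧ ∀ j, j < k → y j = false := by
  rw [mem_cylS]
  have h1 : ∀ j (h : j < (root k).length), (root k)[j] = decide (j = k) := fun j h => by
    by_cases hj : j < k
    · simp [root, hj, hj.ne]
    · have : j = k := by simp at h; omega
      subst this
      simp [root]
  refine ⟨fun h => ⟨?_, fun j hj => ?_⟩, fun h j hj => ?_⟩
  · rw [h k (by simp), h1]; simp
  · rw [h j (by simp; omega), h1]; simp [hj.ne]
  · rw [h1]
    by_cases hk : j = k
    · simp [hk, h.1]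
    · rw [h.2 j (by simp at hj; omega)]; simp [hk]

theorem root_unique {k l : ℕ} {y : Pt} (hk : y ∈ cylS (root k)) (hl : y ∈ cylS (root l)) :
    k = l := by
  rw [mem_cylS_root] at hk hl
  rcases lt_trichotomy k l with h | h | h
  · exact absurd (hk.1.symm.trans (hl.2 k h)) (by simp)
  · exact h
  · exact absurd (hl.1.symm.trans (hk.2 l h)) (by simp)

theorem exists_root {y : Pt} (h : ∃ j, y j = true) : ∃ k, y ∈ cylS (root k) := by
  classical
  exact ⟨Nat.find h, mem_cylS_root.2 ⟨Nat.find_spec h, fun j hj => by
    simpa using Nat.find_min h hj⟩⟩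

theorem true_mem_res {y : Pt} {j n : ℕ} (h : y j = true) (hj : j < n) : true ∈ res y n :=
  List.mem_map.2 ⟨j, List.mem_range.2 hj, h⟩

theorem app_mem_Zs {s : List Bool} {k n : ℕ} (h : s.length ≤ k) {y : Pt} :
    app s y ∈ Zs k n ↔ y ∈ Zs (k - s.length) n := by
  refine ⟨fun H j h1 h2 => ?_, fun H j h1 h2 => ?_⟩
  · rw [← app_add s y j]
    exact H _ (by omega) (by omega)
  · rw [app_ge (by omega)]
    exact H _ (by omega) (by omega)

end Pool.Agent.Lib.MP_f79ffc_lc.R
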